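import Mathlib
import Pool.Agent.Helper75.QC.Defs
import Pool.Agent.Helper9.CHI.Defs
import Pool.Agent.Helper73.CHA.Model
import Pool.Agent.Helper43.AC7.Defs

/-!
# The transcendental part of the motive of a surface

`O` is an algebraic closure of the field with `p` elements, `L` is a field of characteristic zero.
-/

set_option autoImplicit false

namespace Pool.Agent.Helper9.SS

open IntermediateField Polynomial
open Pool.Agent.Helper75.QC (Uniruled IsFrob)
open Pool.Agent.Helper9.CHI (HasVoisinChi)
open Pool.Agent.Helper73.CHA (IsModelL)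
open Pool.Agent.Helper43.AC7 (IsAbelianExt IsCyclicExt)

/-- `H K` is the second cohomology, with coefficients in `L`, of a smooth projective variety `X` over
`O` with function field `K`, modulo the classes of divisors. -/
structure Coh (O L : Type) [Field O] [Field L] where
  H : (K : Type) → [Field K] → [Algebra O K] → Type
  [grp : ∀ (K : Type) [Field K] [Algebra O K], AddCommGroup (H K)]
  [mdl : ∀ (K : Type) [Field K] [Algebra O K], Module L (H K)]
  /-- functoriality -/
  map : ∀ {K K' : Type} [Field K] [Algebra O K] [Field K'] [Algebra O K'],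
    (K →ₐ[O] K') → (H K →ₗ[L] H K')
  map_id : ∀ (K : Type) [Field K] [Algebra O K], map (AlgHom.id O K) = LinearMap.id
  map_comp : ∀ {K K' K'' : Type} [Field K] [Algebra O K] [Field K'] [Algebra O K']
    [Field K''] [Algebra O K''] (g : K →ₐ[O] K') (h : K' →ₐ[O] K''),
    map (h.comp g) = map h ∘ₗ map g
  /-- finiteness -/
  fin : ∀ (K : Type) [Field K] [Algebra O K], (⊤ : IntermediateField O K).FG →
    FiniteDimensional L (H K)
  /-- transfer -/
  inj : ∀ {K K' : Type} [Field K] [Algebra O K] [Field K'] [Algebra O K']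
    (g : K →ₐ[O] K'), (∀ a : K', IsAlgebraic g.fieldRange a) → Function.Injective (map g)
  /-- Galois descent -/
  descent : ∀ (K : Type) [Field K] [Algebra O K] (N : IntermediateField O K)
    [FiniteDimensional N K] [IsGalois N K] (z : H K),
    (∀ τ : K →ₐ[N] K, map (τ.restrictScalars O) z = z) → z ∈ LinearMap.range (map N.val)
  /-- curves and uniruled surfaces -/
  uniruled : ∀ (K : Type) [Field K] [Algebra O K], Uniruled O K 2 → ∀ z : H K, z = 0

attribute [instance] Coh.grp Coh.mdl

/-- `K` is the function field of a surface (or a curve, or a point). -/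
def IsSurface (O K : Type) [Field O] [Field K] [Algebra O K] : Prop :=
  (⊤ : IntermediateField O K).FG ∧ Algebra.trdeg O K ≤ 2

/-- The ring `E K` of the endomorphisms, with coefficients in `L`, of the transcendental part
`t_2(S)` of the Chow motive of a surface `S` with function field `K`. -/
structure Corr (O L : Type) [Field O] [Field L] extends Coh O L where
  E : (K : Type) → [Field K] → [Algebra O K] → Type
  [ringE : ∀ (K : Type) [Field K] [Algebra O K], Ring (E K)]
  [algE : ∀ (K : Type) [Field K] [Algebra O K], Algebra L (E K)]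
  /-- the action on the cohomology -/
  act : ∀ (K : Type) [Field K] [Algebra O K], IsSurface O K → (E K →ₐ[L] Module.End L (H K))
  /-- transposition -/
  tr : ∀ (K : Type) [Field K] [Algebra O K], E K →ₗ[L] E K
  tr_mul : ∀ (K : Type) [Field K] [Algebra O K] (a b : E K), tr K (a * b) = tr K b * tr K a
  /-- the inverse images for the homomorphisms `K → K`, that is the rational maps `S → S` -/
  cor : ∀ {K : Type} [Field K] [Algebra O K], (K →ₐ[O] K) → E K
  cor_id : ∀ (K : Type) [Field K] [Algebra O K], cor (AlgHom.id O K) = 1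
  cor_comp : ∀ {K : Type} [Field K] [Algebra O K] (φ ψ : K →ₐ[O] K),
    cor (φ.comp ψ) = cor φ * cor ψ
  act_cor : ∀ {K : Type} [Field K] [Algebra O K] (hK : IsSurface O K) (φ : K →ₐ[O] K),
    act K hK (cor φ) = map φ

attribute [instance] Corr.ringE Corr.algE

/-- The rules for the transposition. -/
structure TrCorr (p : ℕ) (O L : Type) [Field O] [Field L] extends Corr O L where
  /-- the projection formula for automorphisms and for Frobenius -/
  tr_aut : ∀ {K : Type} [Field K] [Algebra O K], IsSurface O K → ∀ s : K ≃ₐ[O] K,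
    tr K (cor (s : K →ₐ[O] K)) * cor (s : K →ₐ[O] K) = 1
  tr_frob : ∀ {K : Type} [Field K] [Algebra O K], IsSurface O K → ∀ (e : ℕ) (φ : K →ₐ[O] K),
    IsFrob (p ^ e) φ → tr K (cor φ) * cor φ = algebraMap L _ ((p ^ e) ^ 2) ∧
      cor φ * tr K (cor φ) = algebraMap L _ ((p ^ e) ^ 2)

/-- The rules for the endomorphisms which are numerically equivalent to zero. -/
structure Motives (p : ℕ) (O L : Type) [Field O] [Field L] extends TrCorr p O L where
  /-- the endomorphisms which are numerically equivalent to zero -/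
  num : (K : Type) → [Field K] → [Algebra O K] → Set (E K)
  num_mul : ∀ {K : Type} [Field K] [Algebra O K] (a b z : E K), z ∈ num K → a * z * b ∈ num K
  /-- the theorems of Weil and Jannsen: Frobenius is annihilated by a polynomial without multiple
  roots, modulo numerical equivalence -/
  weil : ∀ {K : Type} [Field K] [Algebra O K], IsSurface O K → ∀ (e : ℕ) (φ : K →ₐ[O] K), 0 < e →
    IsFrob (p ^ e) φ → ∃ f : L[X], Squarefree f ∧ aeval (cor φ) f ∈ num K
  /-- the theorem of Bloch and Srinivas: if `a × b = b × a` modulo torsion for the zero-cycles in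
  the eigenspaces of `s` for `χ ≠ 1`, then the correspondences between these eigenspaces which are
  numerically equivalent to zero are symmetric -/
  voisin : ∀ {K : Type} [Field K] [Algebra O K], IsSurface O K → ∀ (s : K ≃ₐ[O] K) (m : ℕ),
    m ≠ 0 → s ^ m = 1 → HasVoisinChi O K s m → ∀ χ : L, χ ≠ 1 → ∀ z ∈ num K,
      cor (s : K →ₐ[O] K) * z = χ • z → z * cor (s : K →ₐ[O] K) = χ⁻¹ • z → tr K z = z

/-- `V` is the second cohomology of a smooth projective surface with function field `K` over the
field with `q` elements, `Fr` is Frobenius and `r` the restriction to the generic point: the kernel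
of `r` is spanned by the classes of curves and has a complement, its orthogonal. -/
structure IsH2 {O L : Type} [Field O] [Field L] (T : Coh O L) {K : Type} [Field K] [Algebra O K]
    (q : ℕ) (φ : K →ₐ[O] K) {V : Type} [AddCommGroup V] [Module L V] (Fr : Module.End L V)
    (r : V →ₗ[L] T.H K) : Prop where
  comm : ∀ v, r (Fr v) = T.map φ (r v)
  classes : ∃ m : ℕ, 0 < m ∧ ∀ v, r v = 0 → (Fr ^ m) v = (q : L) ^ m • v
  compl : ∃ W : Submodule L V, (∀ v ∈ W, Fr v ∈ W) ∧ IsCompl (LinearMap.ker r) W

/-- `K` is finitely generated, and every relative Frobenius endomorphism of `K` acts semisimply on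
the second cohomology. -/
def IsGood (p : ℕ) {O L : Type} [Field O] [Field L] (T : Coh O L) (K : Type) [Field K]
    [Algebra O K] : Prop :=
  (⊤ : IntermediateField O K).FG ∧ ∀ (e : ℕ) (φ : K →ₐ[O] K), 0 < e → IsFrob (p ^ e) φ →
    Module.End.IsSemisimple (T.map φ)

/-- Let `K₀` be the function field of a surface over the field with `q = p ^ e` elements, with the
relative Frobenius endomorphism `φ₀`, such that `K` is algebraic over `K₀` and `φ` extends `φ₀`:
Frobenius is semisimple on the generalised eigenspaces in the second cohomology of the surface for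
all `α` with `α ^ (2 * j) ≠ - q ^ (2 * j)`. -/
def SimpleOff (p : ℕ) {O L : Type} [Field O] [Field L] (T : Coh O L) {K : Type} [Field K]
    [Algebra O K] (φ : K →ₐ[O] K) (e j : ℕ) : Prop :=
  ∀ (K₀ : Type) [Field K₀] [Algebra O K₀] (g : K₀ →ₐ[O] K),
    (∀ a : K, IsAlgebraic g.fieldRange a) → ∀ φ₀ : K₀ →ₐ[O] K₀, (∀ a, g (φ₀ a) = φ (g a)) →
    ∀ (V : Type) [AddCommGroup V] [Module L V] (Fr : Module.End L V) (r : V →ₗ[L] T.H K₀),
      IsH2 T (p ^ e) φ₀ Fr r → ∀ α : L, α ^ (j * 2) ≠ -((p : L) ^ e) ^ (j * 2) →
        ∀ (n : ℕ) (v : V), n ≠ 0 → ((Fr - algebraMap L _ α) ^ n) v = 0 → Fr v = α • v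

/-- `y ^ 2 = x ^ 3 + A(u) * x + B(u)` is the equation of a rational elliptic surface with nonconstant
`j`-invariant. -/
structure IsRational {O : Type} [Field O] (A B : O[X]) : Prop where
  degA : A.natDegree ≤ 4
  degB : B.natDegree ≤ 6
  ind : ∀ c d : O, C c * A ^ 3 = C d * B ^ 2 → c = 0 ∧ d = 0

/-- `P = ∑ l_i X ^ p ^ i` is a separable additive polynomial. -/
def IsAdditive {O : Type} [Field O] (p : ℕ) (P : O[X]) : Prop :=
  ∃ (n : ℕ) (l : ℕ → O), l 0 ≠ 0 ∧ l n ≠ 0 ∧ P = ∑ i ∈ Finset.range (n + 1), C (l i) * X ^ p ^ i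

/-- The symmetric base changes: `u = w ^ m` and palindromic `A`, `B`; `u = P(w)` for a separable
additive polynomial `P`, and even `A`, `B`; `u = D_n(w)` for the Dickson polynomial with
`D_n(v + 1 / v) = v ^ n + 1 / v ^ n` and `deg A ≤ 2`, `deg B ≤ 3`. -/
def IsSymmetric {O : Type} [Field O] (p : ℕ) (P A B : O[X]) : Prop :=
  (∃ m : ℕ, (m : O) ≠ 0 ∧ P = X ^ m ∧ (∀ i ≤ 4, A.coeff i = A.coeff (4 - i)) ∧
      ∀ i ≤ 6, B.coeff i = B.coeff (6 - i)) ∨
    (IsAdditive p P ∧ A.comp (-X) = A ∧ B.comp (-X) = B) ∨
    (∃ n : ℕ, (n : O) ≠ 0 ∧ P = dickson 1 1 n ∧ A.natDegree ≤ 2 ∧ B.natDegree ≤ 3)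

/-- `M = O(x, y, w)`, `y ^ 2 = x ^ 3 + A(u) * x + B(u)`, is a symmetric base change, `u = P(w)`. -/
def IsSymm (p : ℕ) (O M : Type) [Field O] [Field M] [Algebra O M] : Prop :=
  ∃ (P A B : O[X]) (x y w : M), IsRational A B ∧ IsModelL O P A B x y w ∧ IsSymmetric p P A B

/-- `M` is a base change and `R` the given rational elliptic surface -/
def IsQuot (p : ℕ) (O : Type) {K : Type} [Field O] [Field K] [Algebra O K]
    (R : IntermediateField O K) (M : IntermediateField R K) : Prop :=
  ∃ (P A B : O[X]) (x y w : M), IsRational A B ∧ IsModelL O P A B x y w ∧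
    ((∃ m : ℕ, (m : O) ≠ 0 ∧ P = X ^ m) ∨ P = X ^ p - X) ∧
    adjoin O {(x : K), (y : K), ((aeval w P : M) : K)} = R

/-- Frobenius is semisimple on the second cohomology of each surface over a finite field which is
dominated, over `O`, by a surface with the function field `K`. -/
def AllSemisimple (p : ℕ) {O L : Type} [Field O] [Field L] (T : Coh O L) (K : Type) [Field K]
    [Algebra O K] : Prop :=
  ∀ (K₀ : Type) [Field K₀] [Algebra O K₀] (g : K₀ →ₐ[O] K), (⊤ : IntermediateField O K₀).FG →
    (∀ a : K, IsAlgebraic g.fieldRange a) →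
    ∀ (e : ℕ) (φ : K₀ →ₐ[O] K₀), 0 < e → IsFrob (p ^ e) φ →
    ∀ (V : Type) [AddCommGroup V] [Module L V] (Fr : Module.End L V) (r : V →ₗ[L] T.H K₀),
      IsH2 T (p ^ e) φ Fr r → Fr.IsSemisimple

/-- `K / R` is a finite abelian extension, and each cyclic extension `M` of `R` in `K` is good or a
symmetric base change. -/
def IsSymmExt (p : ℕ) {O L : Type} [Field O] [Field L] (T : Coh O L) {K : Type} [Field K]
    [Algebra O K] (R : IntermediateField O K) : Prop :=
  IsAbelianExt R K ∧ ∀ M : IntermediateField R K, IsCyclicExt R M → IsGood p T M ∨ IsSymm p O M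

/-- `K / R` is a finite abelian extension, and each cyclic extension `M` of `R` in `K` is good or a
base change with the given rational elliptic surface `R`. -/
def IsQuotExt (p : ℕ) {O L : Type} [Field O] [Field L] (T : Coh O L) {K : Type} [Field K]
    [Algebra O K] (R : IntermediateField O K) : Prop :=
  IsAbelianExt R K ∧ ∀ M : IntermediateField R K, IsCyclicExt R M → IsGood p T M ∨ IsQuot p O R M

/-- `φ ^ j` inverts the elements of the group of `K / R`. -/
def Inverts {O K : Type} [Field O] [Field K] [Algebra O K] (R : IntermediateField O K)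
    (φ : K →ₐ[O] K) (j : ℕ) : Prop :=
  ∀ (g : K ≃ₐ[R] K) (z : K), (φ ^ j) (g z) = g.symm ((φ ^ j) z)

end Pool.Agent.Helper9.SS
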