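import Mathlib
import Pool.Agent.Helper9.SS.Defs
import Pool.Agent.Helper75.WC.Abel
import Pool.Agent.Helper75.TC.Frob

/-! Project SS (MP_1fe969_ag). `Good p T K`: every relative Frobenius is semisimple on `H K`. The files
`TC/Frob.lean`, `TC/Dom.lean`, `WC/Abel.lean`, `WC/GoodAb.lean` of helper75, for `Coh`. -/

set_option autoImplicit false

namespace Pool.Agent.Helper9.SS

open IntermediateField Module
open Pool.Agent.Helper75.QC (Uniruled IsFrob semisimple_of_pow isFrob_algebraic hom_ext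
  semisimple_of_parts)
open Pool.Agent.Helper75.TC (frob_set exists_frob restrict_frob semisimple_of_iSup
  semisimple_of_inj pow_frob')
open Pool.Agent.Helper75.WC (mem_iSup_eigen incl)

/-- an intermediate field of a finite extension of a finitely generated field -/
theorem exists_gen {Ω K : Type} [Field Ω] [Field K] [Algebra Ω K] (R : IntermediateField Ω K)
    (hR : (⊤ : IntermediateField Ω R).FG) [FiniteDimensional R K] (M : IntermediateField R K) :
    ∃ Q : Set K, Q.Finite ∧ adjoin Ω Q = M.restrictScalars Ω := by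
  classical
  obtain ⟨S, hS⟩ := hR
  obtain ⟨B, hB⟩ := (inferInstance : Module.Finite R M).fg_top
  refine ⟨(fun a : R => (a : K)) '' (S : Set R) ∪ (fun b : M => (b : K)) '' (B : Set M),
    (S.finite_toSet.image _).union (B.finite_toSet.image _), ?_⟩
  apply le_antisymm
  · rw [adjoin_le_iff]
    rintro _ (⟨a, _, rfl⟩ | ⟨b, _, rfl⟩)
    · exact M.algebraMap_mem a
    · exact b.2
  · have hRle : ∀ a : R, (a : K) ∈ adjoin Ω ((fun a : R => (a : K)) '' (S : Set R) ∪
        (fun b : M => (b : K)) '' (B : Set M)) := by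
      intro a
      have h1 : (⊤ : IntermediateField Ω R) ≤ (adjoin Ω ((fun a : R => (a : K)) '' (S : Set R) ∪
          (fun b : M => (b : K)) '' (B : Set M))).comap R.val := by
        rw [← hS, adjoin_le_iff]
        intro s hs
        exact subset_adjoin Ω _ (Or.inl ⟨s, hs, rfl⟩)
      exact h1 (mem_top (x := a))
    intro x hx
    have h2 : ∀ m : M, (m : K) ∈ adjoin Ω ((fun a : R => (a : K)) '' (S : Set R) ∪
        (fun b : M => (b : K)) '' (B : Set M)) := by
      intro m
      have hm : m ∈ Submodule.span R (B : Set M) := by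
        rw [hB]
        exact Submodule.mem_top
      induction hm using Submodule.span_induction with
      | mem b hb => exact subset_adjoin Ω _ (Or.inr ⟨b, hb, rfl⟩)
      | zero => exact zero_mem _
      | add a b _ _ ha hb => exact add_mem ha hb
      | smul c a _ ha =>
        have h3 : ((c • a : M) : K) = (c : K) * (a : K) := rfl
        rw [h3]
        exact mul_mem (hRle c) ha
    exact h2 ⟨x, hx⟩

theorem fg_sub {Ω K : Type} [Field Ω] [Field K] [Algebra Ω K] {S : Set K} (hS : S.Finite) :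
    (⊤ : IntermediateField Ω (adjoin Ω S)).FG := by
  have h1 : adjoin Ω ((fun a : adjoin Ω S => (a : K)) ⁻¹' S) = ⊤ := by
    apply lift_injective (adjoin Ω S)
    rw [lift_top, lift_adjoin]
    apply le_antisymm
    · rw [adjoin_le_iff]
      rintro _ ⟨a, _, rfl⟩
      exact a.2
    · rw [adjoin_le_iff]
      intro a ha
      apply subset_adjoin
      exact ⟨⟨a, subset_adjoin _ _ ha⟩, ha, rfl⟩
  rw [← h1]
  exact fg_adjoin_of_finite (hS.preimage (Subtype.val_injective.injOn))

theorem tmap_pow {Ω L : Type} [Field Ω] [Field L] (T : Coh Ω L) {K : Type} [Field K]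
    [Algebra Ω K] (σ : K →ₐ[Ω] K) (j : ℕ) : T.map (σ ^ j) = T.map σ ^ j := by
  induction j with
  | zero =>
    rw [pow_zero, pow_zero]
    exact T.map_id K
  | succ j ih =>
    rw [pow_succ, pow_succ, ← ih]
    exact T.map_comp σ (σ ^ j)

/-- `K0 → K` is algebraic, `φ0` a relative Frobenius of `K0`, its `m`-th power is induced by `φ` -/
theorem semisimple_of_dom {p : ℕ} [Fact p.Prime] {Ω L : Type} [Field Ω] [Field L] [CharZero L]
    [IsAlgClosed L] (T : Coh Ω L) {K0 K : Type} [Field K0] [Algebra Ω K0] [Field K]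
    [Algebra Ω K] (hK : (⊤ : IntermediateField Ω K).FG) (g : K0 →ₐ[Ω] K)
    (hg : ∀ a : K, IsAlgebraic g.fieldRange a) {e m : ℕ} (hm : 0 < m) (φ0 : K0 →ₐ[Ω] K0)
    (φ : K →ₐ[Ω] K) (h0 : IsFrob (p ^ e) φ0) (hc : ∀ a, g ((φ0 ^ m) a) = φ (g a))
    (h : Module.End.IsSemisimple (T.map φ)) : Module.End.IsSemisimple (T.map φ0) := by
  have hfin : FiniteDimensional L (T.H K) := T.fin K hK
  have hi : Function.Injective (T.map g) := T.inj g hg
  have hfin0 : FiniteDimensional L (T.H K0) := FiniteDimensional.of_injective _ hi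
  refine semisimple_of_pow (T.map φ0) (T.inj φ0
    (isFrob_algebraic (pow_pos (Fact.out : p.Prime).pos e) h0)) hm ?_
  rw [← tmap_pow T]
  refine semisimple_of_inj _ _ (T.map g) hi (fun v => ?_) h
  have h1 : g.comp (φ0 ^ m) = φ.comp g := AlgHom.ext fun a => hc a
  have h2 := congrArg (fun r => T.map r v) h1
  simp only [T.map_comp, LinearMap.comp_apply] at h2
  exact h2

variable {p : ℕ} [hpr : Fact p.Prime] {Ω L : Type} [Field Ω] [CharP Ω p] [Field L]

/-- every relative Frobenius is semisimple on the second cohomology -/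
def Good (p : ℕ) (T : Coh Ω L) (K : Type) [Field K] [Algebra Ω K] : Prop :=
  ∀ (e : ℕ) (φ : K →ₐ[Ω] K), 0 < e → IsFrob (p ^ e) φ → Module.End.IsSemisimple (T.map φ)

/-- it is enough to consider a power -/
theorem Good.of_pow [CharZero L] [IsAlgClosed L] (T : Coh Ω L) {K : Type} [Field K]
    [Algebra Ω K] (hK : (⊤ : IntermediateField Ω K).FG)
    (h : ∀ (e : ℕ) (φ : K →ₐ[Ω] K), 0 < e → IsFrob (p ^ e) φ →
      ∃ k : ℕ, 0 < k ∧ Module.End.IsSemisimple (T.map (φ ^ k))) : Good p T K := by
  intro e φ he hφ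
  obtain ⟨k, hk, h1⟩ := h e φ he hφ
  have hfin : FiniteDimensional L (T.H K) := T.fin K hK
  refine semisimple_of_pow (T.map φ) (T.inj φ
    (isFrob_algebraic (pow_pos hpr.out.pos e) hφ)) hk ?_
  rw [← tmap_pow T]
  exact h1

/-- **Domination.** -/
theorem Good.of_hom (hΩ : ∀ c : Ω, ∃ k : ℕ, 0 < k ∧ c ^ p ^ k = c) [IsAlgClosed Ω] [CharZero L]
    [IsAlgClosed L] (T : Coh Ω L) {K0 K : Type} [Field K0] [Algebra Ω K0] [Field K]
    [Algebra Ω K] (hK0 : (⊤ : IntermediateField Ω K0).FG) (hK : (⊤ : IntermediateField Ω K).FG)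
    (j : K0 →ₐ[Ω] K) (hj : ∀ a : K, IsAlgebraic j.fieldRange a) (h : Good p T K) : Good p T K0 := by
  intro e φ0 he h0
  obtain ⟨k2, Φ, hk2, hΦ⟩ := exists_frob hΩ hK
  obtain ⟨Q, hQ⟩ := hK0
  obtain ⟨k1, hk1, h1⟩ := frob_set hΩ φ0 h0 (Q : Set K0) Q.finite_toSet
  obtain ⟨k3, hk3, h3⟩ := frob_set hΩ Φ hΦ (j '' (Q : Set K0)) (Q.finite_toSet.image j)
  have hE : 0 < e * (k1 * k2 * k3) := Nat.mul_pos he (Nat.mul_pos (Nat.mul_pos hk1 hk2) hk3)
  -- the common exponent
  have hfr : IsFrob (p ^ (k2 * (k3 * (e * k1)))) (Φ ^ (k3 * (e * k1))) := by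
    show adjoin Ω _ = ⊤
    rw [eq_top_iff]
    have h4 : adjoin Ω {a : K | Φ a = a ^ p ^ k2} = ⊤ := hΦ
    rw [← h4]
    apply adjoin.mono
    intro a ha
    have h5 : (Φ ^ 1) a = a ^ p ^ (k2 * 1) := by
      rw [pow_one, mul_one]
      exact ha
    exact pow_frob' Φ h5 (one_dvd _)
  have hss := h _ _ (by positivity) hfr
  refine semisimple_of_dom T hK j hj (e := e) (m := k1 * k2 * k3)
    (Nat.mul_pos (Nat.mul_pos hk1 hk2) hk3) φ0 _ h0 (fun a => ?_) hss
  have h6 : j.comp (φ0 ^ (k1 * k2 * k3)) = (Φ ^ (k3 * (e * k1))).comp j := by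
    refine hom_ext (Q : Set K0) hQ _ _ ?_
    intro a ha
    rw [AlgHom.comp_apply, AlgHom.comp_apply,
      h1 _ ((Dvd.intro _ rfl).trans (Dvd.intro _ rfl)) a ha, map_pow,
      h3 _ (Dvd.intro _ rfl) (j a) ⟨a, ha, rfl⟩]
    congr 2
    ring
  exact AlgHom.congr_fun h6 a

/-- **Sums of images of the cohomology of subfields.** -/
theorem Good.of_span (hΩ : ∀ c : Ω, ∃ k : ℕ, 0 < k ∧ c ^ p ^ k = c) [CharZero L]
    [IsAlgClosed L] (T : Coh Ω L) {K : Type} [Field K]
    [Algebra Ω K] (hK : (⊤ : IntermediateField Ω K).FG) {ι : Type} [Finite ι] (Q : ι → Set K)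
    (hQ : ∀ i, (Q i).Finite) (halg : ∀ i, ∀ a : K, IsAlgebraic (adjoin Ω (Q i)) a)
    (hspan : ⨆ i, LinearMap.range (T.map (adjoin Ω (Q i)).val) = ⊤)
    (h : ∀ i, Good p T (adjoin Ω (Q i))) : Good p T K := by
  refine Good.of_pow T hK fun e φ he hφ => ?_
  obtain ⟨k, hk, h1⟩ := frob_set hΩ φ hφ (⋃ i, Q i) (Set.finite_iUnion hQ)
  have h2 : ∀ i, ∃ ψ : adjoin Ω (Q i) →ₐ[Ω] adjoin Ω (Q i), IsFrob (p ^ (e * k)) ψ ∧
      ∀ a : adjoin Ω (Q i), (ψ a : K) = (φ ^ k) a := fun i =>
    restrict_frob φ (Q i) fun a ha => h1 k dvd_rfl a (Set.mem_iUnion.2 ⟨i, ha⟩)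
  choose ψ hψ hψ' using h2
  have hfin : FiniteDimensional L (T.H K) := T.fin K hK
  refine ⟨k, hk, semisimple_of_iSup (T.map (φ ^ k)) (fun i => T.H (adjoin Ω (Q i)))
    (fun i => T.map (ψ i)) (fun i => T.map (adjoin Ω (Q i)).val) (fun i => ?_) (fun i v => ?_)
    (fun i => h i _ (ψ i) (Nat.mul_pos he hk) (hψ i)) hspan⟩
  · refine T.inj _ fun a => ?_
    rw [IntermediateField.fieldRange_val]
    exact halg i a
  · have h6 : (adjoin Ω (Q i)).val.comp (ψ i) = (φ ^ k).comp (adjoin Ω (Q i)).val :=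
      AlgHom.ext fun a => hψ' i a
    have h7 := congrArg (fun g => T.map g v) h6
    simp only [T.map_comp, LinearMap.comp_apply] at h7
    exact h7

section

variable {K : Type} [Field K] [Algebra Ω K]

/-- the action of the Galois group on the cohomology -/
noncomputable def galRep (T : Coh Ω L) (R : IntermediateField Ω K)  :
    (K ≃ₐ[R] K) →* Module.End L (T.H K) where
  toFun g := T.map ((g : K →ₐ[R] K).restrictScalars Ω)
  map_one' := T.map_id K
  map_mul' g h := T.map_comp ((h : K →ₐ[R] K).restrictScalars Ω)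
    ((g : K →ₐ[R] K).restrictScalars Ω)

/-- An eigenclass comes from the fixed field of the kernel of its character. -/
theorem eigen_cyclic (T : Coh Ω L) (R : IntermediateField Ω K) [FiniteDimensional R K]
    [IsGalois R K] (χ : (K ≃ₐ[R] K) →* Lˣ) (t : T.H K)
    (ht : ∀ g, galRep T R g t = (χ g : L) • t) :
    IsCyclic (fixedField χ.ker ≃ₐ[R] fixedField χ.ker) ∧
      t ∈ LinearMap.range (T.map (incl R (fixedField χ.ker))) := by
  classical
  constructor
  · haveI : Finite χ.range := by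
      have h1 : Finite (K ≃ₐ[R] K) := inferInstance
      exact Finite.of_surjective _ χ.rangeRestrict_surjective
    haveI : IsCyclic χ.range := isCyclic_subgroup_units _
    have e1 := (IsGalois.normalAutEquivQuotient χ.ker).symm.trans
      (QuotientGroup.quotientKerEquivRange χ)
    exact (MulEquiv.isCyclic e1).2 inferInstance
  · obtain ⟨M, hM⟩ : ∃ M : IntermediateField R K, M = fixedField χ.ker := ⟨_, rfl⟩
    rw [← hM]
    have i1 : FiniteDimensional (M.restrictScalars Ω : IntermediateField Ω K) K :=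
      inferInstanceAs (FiniteDimensional M K)
    have i2 : IsGalois (M.restrictScalars Ω : IntermediateField Ω K) K :=
      inferInstanceAs (IsGalois M K)
    obtain ⟨s, hs⟩ := T.descent K (M.restrictScalars Ω) t (fun τ => by
      let τ' : K →ₐ[R] K :=
        { toRingHom := (τ : K →+* K)
          commutes' := fun c => τ.commutes
            (⟨(c : K), M.algebraMap_mem c⟩ : (M.restrictScalars Ω : IntermediateField Ω K)) }
      let g : K ≃ₐ[R] K := AlgEquiv.ofBijective τ' (Algebra.IsAlgebraic.algHom_bijective τ')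
      have hg : g ∈ χ.ker := by
        rw [← fixingSubgroup_fixedField χ.ker, ← hM, IntermediateField.mem_fixingSubgroup_iff]
        intro x hx
        exact τ.commutes (⟨x, hx⟩ : (M.restrictScalars Ω : IntermediateField Ω K))
      have h1 := ht g
      rw [MonoidHom.mem_ker] at hg
      rw [hg, Units.val_one, one_smul] at h1
      exact h1)
    let e : (M.restrictScalars Ω : IntermediateField Ω K) →ₐ[Ω] M :=
      { toFun := fun x => ⟨x.1, x.2⟩
        map_one' := rfl
        map_mul' := fun _ _ => rfl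
        map_zero' := rfl
        map_add' := fun _ _ => rfl
        commutes' := fun _ => rfl }
    refine ⟨T.map e s, ?_⟩
    have h1 : (incl R M).comp e = (M.restrictScalars Ω : IntermediateField Ω K).val := rfl
    have h2 := T.map_comp e (incl R M)
    rw [h1] at h2
    rw [← hs, h2]
    rfl

/-- **The cohomology of an abelian extension is spanned by that of its cyclic subextensions.** -/
theorem span_cyclic [CharZero L] [IsAlgClosed L] (T : Coh Ω L) (R : IntermediateField Ω K)
    [FiniteDimensional R K] [IsGalois R K] (hab : ∀ g h : K ≃ₐ[R] K, g * h = h * g) :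
    ⨆ M : {M : IntermediateField R K // IsCyclic (M ≃ₐ[R] M)},
      LinearMap.range (T.map (incl R M.1)) = ⊤ := by
  rw [eq_top_iff]
  intro t _
  have h1 := mem_iSup_eigen hab (galRep T R) t
  refine (iSup_le fun χ s hs => ?_ : (⨆ χ : (K ≃ₐ[R] K) →* Lˣ,
    ⨅ g, (galRep T R g).eigenspace (χ g : L)) ≤ _) h1
  obtain ⟨h2, h3⟩ := eigen_cyclic T R χ s fun g => by
    rw [Submodule.mem_iInf] at hs
    exact Module.End.mem_eigenspace_iff.1 (hs g)
  exact Submodule.mem_iSup_of_mem ⟨_, h2⟩ h3

end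

variable [IsAlgClosed Ω] [CharZero L] [IsAlgClosed L]

/-- **Abelian extensions.** -/
theorem good_abelian (hΩ : ∀ c : Ω, ∃ k : ℕ, 0 < k ∧ c ^ p ^ k = c) (T : Coh Ω L) {K : Type}
    [Field K] [Algebra Ω K] (R : IntermediateField Ω K) (hR : (⊤ : IntermediateField Ω R).FG)
    [FiniteDimensional R K] [IsGalois R K] (hab : ∀ g h : K ≃ₐ[R] K, g * h = h * g)
    (h : ∀ M : IntermediateField R K, IsCyclic (M ≃ₐ[R] M) → Good p T M) : Good p T K := by
  classical
  have hfin : Finite (IntermediateField R K) :=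
    Finite.of_equiv _ (IsGalois.intermediateFieldEquivSubgroup (F := R) (E := K)).symm.toEquiv
  choose Q hQ1 hQ2 using exists_gen (Ω := Ω) (K := K) R hR
  have hK : (⊤ : IntermediateField Ω K).FG := by
    have h1 : adjoin Ω (Q ⊤) = ⊤ := by
      rw [hQ2]
      rfl
    rw [← h1]
    exact fg_adjoin_of_finite (hQ1 _)
  -- the field generated by `Q M` is `M`
  let e : ∀ M : IntermediateField R K, (adjoin Ω (Q M) : IntermediateField Ω K) →ₐ[Ω] M :=
    fun M =>
      { toFun := fun x => ⟨x.1, (hQ2 M).le x.2⟩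
        map_one' := rfl
        map_mul' := fun _ _ => rfl
        map_zero' := rfl
        map_add' := fun _ _ => rfl
        commutes' := fun _ => rfl }
  let e' : ∀ M : IntermediateField R K, M →ₐ[Ω] (adjoin Ω (Q M) : IntermediateField Ω K) :=
    fun M =>
      { toFun := fun x => ⟨x.1, (hQ2 M).ge x.2⟩
        map_one' := rfl
        map_mul' := fun _ _ => rfl
        map_zero' := rfl
        map_add' := fun _ _ => rfl
        commutes' := fun _ => rfl }
  refine Good.of_span hΩ T hK (ι := {M : IntermediateField R K // IsCyclic (M ≃ₐ[R] M)})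
    (fun M => Q M.1) (fun M => hQ1 M.1) (fun M a => ?_) ?_ (fun M => ?_)
  · -- algebraic
    have h1 : IsAlgebraic R a := Algebra.IsAlgebraic.isAlgebraic a
    have h2 : ∀ c : R, (c : K) ∈ adjoin Ω (Q M.1) := by
      intro c
      rw [hQ2]
      exact M.1.algebraMap_mem c
    obtain ⟨P, hP, hP'⟩ := h1
    let f : R →+* (adjoin Ω (Q M.1) : IntermediateField Ω K) :=
      { toFun := fun c => ⟨c, h2 c⟩
        map_one' := rfl
        map_mul' := fun _ _ => rfl
        map_zero' := rfl
        map_add' := fun _ _ => rfl }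
    refine ⟨P.map f, (Polynomial.map_ne_zero_iff f.injective).2 hP, ?_⟩
    rw [Polynomial.aeval_def, Polynomial.eval₂_map]
    exact hP'
  · rw [eq_top_iff, ← span_cyclic T R hab]
    refine iSup_mono fun M => ?_
    rintro _ ⟨s, rfl⟩
    refine ⟨T.map (e' M.1) s, ?_⟩
    have h1 : (adjoin Ω (Q M.1)).val.comp (e' M.1) = incl R M.1 := rfl
    have h2 := T.map_comp (e' M.1) (adjoin Ω (Q M.1)).val
    rw [h1] at h2
    rw [h2]
    rfl
  · have hfg : (⊤ : IntermediateField Ω (adjoin Ω (Q M.1))).FG := fg_sub (hQ1 M.1)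
    have hfg' : (⊤ : IntermediateField Ω M.1).FG := by
      obtain ⟨S, hS⟩ := hfg
      have h1 : adjoin Ω ((e M.1) '' (S : Set _)) = ⊤ := by
        rw [← adjoin_map, hS, eq_top_iff]
        intro x _
        exact ⟨e' M.1 x, mem_top, rfl⟩
      rw [← h1]
      exact fg_adjoin_of_finite (S.finite_toSet.image _)
    refine Good.of_hom hΩ T hfg hfg' (e M.1) (fun a => ?_) (h M.1 M.2)
    exact isAlgebraic_algebraMap (⟨a, e' M.1 a, rfl⟩ : (e M.1).fieldRange)

theorem good_of_uniruled (T : Coh Ω L) {K : Type} [Field K] [Algebra Ω K]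
    (hK : Uniruled Ω K 2) : Good p T K := by
  intro e φ _ _
  have h1 : T.map φ = 0 := by
    ext v
    rw [T.uniruled K hK v, map_zero, map_zero]
  rw [h1]
  exact Module.End.isSemisimple_zero

end Pool.Agent.Helper9.SS
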