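import Mathlib

/-! Project SS (MP_1fe969_ag). The linear algebra. -/

set_option autoImplicit false

namespace Pool.Agent.Helper9.SS

open Polynomial

variable {L V : Type} [Field L] [CharZero L] [AddCommGroup V] [Module L V]

/-- the value of a polynomial in an endomorphism at an eigenvector -/
theorem aeval_eigen {F : Module.End L V} {α : L} {x : V} (h : F x = α • x) (g : L[X]) :
    aeval F g x = g.eval α • x := by
  induction g using Polynomial.induction_on' with
  | add p q hp hq => rw [map_add, LinearMap.add_apply, hp, hq, eval_add, add_smul]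
  | monomial n a =>
    have h1 : ∀ n : ℕ, (F ^ n) x = α ^ n • x := by
      intro n
      induction n with
      | zero => simp
      | succ n ih => rw [pow_succ', Module.End.mul_apply, ih, map_smul, h, smul_smul, ← pow_succ]
    rw [aeval_monomial, eval_monomial, Module.End.mul_apply, h1, Module.algebraMap_end_apply,
      smul_smul]

theorem comm_aeval {F F' : Module.End L V} (h : F * F' = F' * F) (g g' : L[X]) (x : V) :
    aeval F g (aeval F' g' x) = aeval F' g' (aeval F g x) := by
  have h1 : Commute (aeval F g) (aeval F' g') := by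
    have h2 : Commute F F' := h
    have h3 : ∀ g : L[X], Commute (aeval F g) F' := by
      intro g
      induction g using Polynomial.induction_on' with
      | add p q hp hq => rw [map_add]; exact hp.add_left hq
      | monomial n a =>
        rw [aeval_monomial]
        exact (Algebra.commute_algebraMap_left a F').mul_left (h2.pow_left n)
    induction g' using Polynomial.induction_on' with
    | add p q hp hq => rw [map_add]; exact hp.add_right hq
    | monomial n a =>
      rw [aeval_monomial]
      exact (Algebra.commute_algebraMap_right a _).mul_right ((h3 g).pow_right n)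
  exact LinearMap.congr_fun h1.eq x

section

variable {F F' : Module.End L V} {q : L} (hq : q ≠ 0) (h12 : F * F' = algebraMap L _ (q ^ 2))
  (h21 : F' * F = algebraMap L _ (q ^ 2)) {f₀ P : L[X]} {c : L} {e : V}

include hq h12 h21

/-- The first relation. -/
theorem rel_one (hP : ∀ x, aeval F P x = 0 → x = 0)
    (hstar : ∀ g, f₀ ∣ g → aeval F P (aeval F g e) = c • aeval F' g e) :
    F (F (aeval F f₀ e)) = q ^ 2 • aeval F f₀ e := by
  have hc : F * F' = F' * F := h12.trans h21.symm
  have e1 := hstar f₀ dvd_rfl
  have e2 := hstar (X * f₀) (Dvd.intro_left _ rfl)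
  rw [map_mul, map_mul, aeval_X, aeval_X, Module.End.mul_apply, Module.End.mul_apply] at e2
  have e3 : aeval F P (F (aeval F f₀ e)) = F' (aeval F P (aeval F f₀ e)) := by
    rw [e2, e1, map_smul]
  have e4 : F' (aeval F P (aeval F f₀ e)) = aeval F P (F' (aeval F f₀ e)) := by
    have := comm_aeval hc P X (aeval F f₀ e)
    rw [aeval_X] at this
    exact this.symm
  have e5 : F (aeval F f₀ e) = F' (aeval F f₀ e) := by
    rw [← sub_eq_zero]
    apply hP
    rw [map_sub, e3, e4, sub_self]
  have e6 : F (F' (aeval F f₀ e)) = q ^ 2 • aeval F f₀ e := by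
    have := LinearMap.congr_fun h12 (aeval F f₀ e)
    exact this
  rw [e5, e6]

/-- The second relation. -/
theorem rel_two (hP : ∀ x, aeval F P x = 0 → x = 0) (hc0 : c ≠ 0)
    (hstar : ∀ g, f₀ ∣ g → aeval F P (aeval F g e) = c • aeval F' g e) (hsq : Squarefree f₀)
    {α : L} (hα : α ^ 2 = q ^ 2) (h0 : f₀.eval α = 0) (hcα : c + P.eval α ≠ 0) :
    F (aeval F f₀ e) + α • aeval F f₀ e = 0 := by
  have hc : F * F' = F' * F := h12.trans h21.symm
  have hα0 : α ≠ 0 := by
    rintro rfl
    apply hq
    have : q ^ 2 = 0 := by rw [← hα]; ring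
    exact pow_eq_zero_iff (by norm_num) |>.mp this
  obtain ⟨u, hu⟩ := dvd_iff_isRoot.mpr h0
  have huα : u.eval α ≠ 0 := by
    intro h
    obtain ⟨w, hw⟩ := dvd_iff_isRoot.mpr h
    have h1 : (X - C α) * (X - C α) ∣ f₀ := ⟨w, by rw [hu, hw]; ring⟩
    have h2 := hsq _ h1
    exact not_isUnit_X_sub_C α h2
  set ω := aeval F f₀ e with hω
  set κ := F ω + α • ω with hκ
  have r1 := rel_one hq h12 h21 hP hstar
  rw [← hω] at r1
  have hFκ : F κ = α • κ := by
    rw [hκ, map_add, r1, map_smul, smul_add, smul_smul, ← pow_two, hα, add_comm]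
  have hF'κ : F' κ = α • κ := by
    have h1 : F' (F κ) = q ^ 2 • κ := LinearMap.congr_fun h21 κ
    rw [hFκ, map_smul] at h1
    have h2 : α • (F' κ) = α • (α • κ) := by rw [h1, smul_smul, ← pow_two, hα]
    exact smul_right_injective V hα0 h2
  -- two formulas for `κ`
  have k1 : κ = aeval F (X ^ 2 - C (q ^ 2)) (aeval F u e) := by
    have h1 : aeval F (X ^ 2 - C (q ^ 2)) (aeval F u e) = aeval F ((X + C α) * f₀) e := by
      rw [← Module.End.mul_apply, ← map_mul]
      congr 2
      rw [hu, ← hα, map_pow]
      ring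
    rw [h1, map_mul, Module.End.mul_apply, map_add, aeval_X, aeval_C, LinearMap.add_apply,
      Module.algebraMap_end_apply]
  have k2 : P.eval α • κ = -c • aeval F (X ^ 2 - C (q ^ 2)) (aeval F' u e) := by
    have e1 := hstar f₀ dvd_rfl
    rw [← hω] at e1
    have h1 : F (aeval F P κ) = (α * P.eval α) • κ := by
      rw [aeval_eigen hFκ, map_smul, hFκ, smul_smul, mul_comm]
    have h2 : aeval F P κ = c • (F (aeval F' f₀ e) + α • aeval F' f₀ e) := by
      have h3 : aeval F P (F ω) = F (aeval F P ω) := by
        have := comm_aeval (F := F) (F' := F) rfl P X ω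
        rwa [aeval_X] at this
      rw [hκ, map_add, map_smul, h3, e1, map_smul, smul_add, smul_smul, smul_smul, mul_comm α c]
    set y := aeval F' u e with hy
    have h4 : aeval F' f₀ e = F' y - α • y := by
      rw [hu, map_mul, Module.End.mul_apply, map_sub, aeval_X, aeval_C, LinearMap.sub_apply,
        Module.algebraMap_end_apply]
    have h5 : F (F' y) = q ^ 2 • y := LinearMap.congr_fun h12 y
    have h6 : F (aeval F' f₀ e) + α • aeval F' f₀ e = α • (F' y - F y) := by
      rw [h4, map_sub, h5, map_smul, ← hα, smul_sub, smul_sub, smul_smul, ← pow_two]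
      abel
    have h7 : F (F' y - F y) = -(aeval F (X ^ 2 - C (q ^ 2)) y) := by
      rw [map_sub, h5, map_sub, map_pow, aeval_X, aeval_C, LinearMap.sub_apply,
        Module.algebraMap_end_apply, pow_two F, Module.End.mul_apply]
      abel
    have h8 : (α * P.eval α) • κ = (α * -c) • aeval F (X ^ 2 - C (q ^ 2)) y := by
      rw [← h1, h2, h6, map_smul, map_smul, h7, smul_neg, smul_neg, smul_smul]
      rw [← neg_smul]
      congr 1
      ring
    rw [mul_smul, mul_smul] at h8
    exact smul_right_injective V hα0 h8
  have k3 : aeval F' u κ = aeval F (X ^ 2 - C (q ^ 2)) (aeval F u (aeval F' u e)) := by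
    rw [k1, ← comm_aeval hc (X ^ 2 - C (q ^ 2)) u, ← comm_aeval hc u u]
  have k4 : P.eval α • aeval F u κ = -c • aeval F' u κ := by
    rw [k3, ← map_smul, k2, map_smul]
    congr 1
    exact comm_aeval (F := F) (F' := F) rfl _ _ _
  rw [aeval_eigen hFκ, aeval_eigen hF'κ] at k4
  have k5 : ((c + P.eval α) * u.eval α) • κ = 0 := by
    rw [add_mul, add_smul, mul_smul, mul_smul, k4, neg_smul, add_neg_cancel]
  exact (smul_eq_zero.mp k5).resolve_left (mul_ne_zero hcα huα)

end

end Pool.Agent.Helper9.SS
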