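import Mathlib
import Pool.Agent.Helper9.SS.Alg

/-! Project SS (MP_1fe969_ag). Polynomials which kill. -/

set_option autoImplicit false

namespace Pool.Agent.Helper9.SS

open Polynomial

variable {L V : Type} [Field L] [CharZero L] [AddCommGroup V] [Module L V]

open Classical in
/-- the linear factor `X - α`, if `α` is not a root of `f` -/
noncomputable def fac (f : L[X]) (α : L) : L[X] := if f.eval α = 0 then 1 else X - C α

theorem squarefree_fac {f : L[X]} (hf : Squarefree f) (α : L) : Squarefree (f * fac f α) := by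
  unfold fac
  split_ifs with h
  · rwa [mul_one]
  · rw [squarefree_mul_iff]
    refine ⟨?_, hf, (irreducible_X_sub_C α).squarefree⟩
    apply IsRelPrime.symm
    exact ((irreducible_X_sub_C α).isRelPrime_iff_not_dvd).mpr
      (fun h1 => h (dvd_iff_isRoot.mp h1))

/-- the polynomial for an involution -/
noncomputable def polI (f : L[X]) (q : L) : L[X] := (f * fac f q) * fac (f * fac f q) (-q)

theorem squarefree_polI {f : L[X]} (hf : Squarefree f) (q : L) : Squarefree (polI f q) :=
  squarefree_fac (squarefree_fac hf q) (-q)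

/-- the polynomial for Frobenius -/
noncomputable def polF (f : L[X]) (q : L) : L[X] := (f * fac f q) * (X + C q)

section

variable {F F' : Module.End L V} {q : L} (hq : q ≠ 0) (h12 : F * F' = algebraMap L _ (q ^ 2))
  (h21 : F' * F = algebraMap L _ (q ^ 2)) {f₀ P : L[X]} {c : L} {e : V}

include hq h12 h21

theorem polF_kill (hP : ∀ x, aeval F P x = 0 → x = 0) (hc0 : c ≠ 0)
    (hstar : ∀ g, f₀ ∣ g → aeval F P (aeval F g e) = c • aeval F' g e) (hsq : Squarefree f₀)
    (hcq : c + P.eval q ≠ 0) : aeval F (polF f₀ q) e = 0 := by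
  have r1 := rel_one hq h12 h21 hP hstar
  unfold polF fac
  split_ifs with h
  · rw [mul_one, mul_comm, map_mul, Module.End.mul_apply, map_add, aeval_X, aeval_C,
      LinearMap.add_apply, Module.algebraMap_end_apply]
    exact rel_two hq h12 h21 hP hc0 hstar hsq rfl h hcq
  · rw [show f₀ * (X - C q) * (X + C q) = (X ^ 2 - C (q ^ 2)) * f₀ by rw [map_pow]; ring,
      map_mul, Module.End.mul_apply, map_sub, map_pow, aeval_X, aeval_C, LinearMap.sub_apply,
      Module.algebraMap_end_apply, pow_two, Module.End.mul_apply, r1, sub_self]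

theorem polI_kill (hP : ∀ x, aeval F P x = 0 → x = 0) (hc0 : c ≠ 0)
    (hstar : ∀ g, f₀ ∣ g → aeval F P (aeval F g e) = c • aeval F' g e) (hsq : Squarefree f₀)
    (hcq : c + P.eval q ≠ 0) (hcq' : c + P.eval (-q) ≠ 0) : aeval F (polI f₀ q) e = 0 := by
  have h2q : q ≠ -q := by
    intro h
    have : (2 : L) * q = 0 := by linear_combination h
    rcases mul_eq_zero.mp this with h1 | h1
    · exact two_ne_zero h1
    · exact hq h1
  have r1 := rel_one hq h12 h21 hP hstar
  set ω := aeval F f₀ e with hω
  have hlin : ∀ (α : L) (y : V), aeval F (X - C α) y = F y - α • y := by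
    intro α y
    rw [map_sub, aeval_X, aeval_C, LinearMap.sub_apply, Module.algebraMap_end_apply]
  unfold polI
  by_cases h : f₀.eval q = 0
  · have e1 : f₀ * fac f₀ q = f₀ := by unfold fac; rw [if_pos h, mul_one]
    rw [e1]
    have s1 := rel_two hq h12 h21 hP hc0 hstar hsq rfl h hcq
    rw [← hω] at s1
    by_cases h' : f₀.eval (-q) = 0
    · have e2 : f₀ * fac f₀ (-q) = f₀ := by unfold fac; rw [if_pos h', mul_one]
      rw [e2, ← hω]
      have s2 := rel_two hq h12 h21 hP hc0 hstar hsq (by ring : (-q) ^ 2 = q ^ 2) h' hcq'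
      rw [← hω] at s2
      have s3 : (2 * q) • ω = 0 := by
        have : (F ω + q • ω) - (F ω + -q • ω) = 0 := by rw [s1, s2, sub_zero]
        rw [← this, two_mul, add_smul, neg_smul]
        abel
      exact (smul_eq_zero.mp s3).resolve_left (mul_ne_zero two_ne_zero hq)
    · have e2 : fac f₀ (-q) = X - C (-q) := by unfold fac; rw [if_neg h']
      rw [e2, mul_comm, map_mul, Module.End.mul_apply, hlin, ← hω, neg_smul, sub_neg_eq_add, s1]
  · have e1 : fac f₀ q = X - C q := by unfold fac; rw [if_neg h]
    rw [e1]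
    have hev : (f₀ * (X - C q)).eval (-q) = 0 ↔ f₀.eval (-q) = 0 := by
      rw [eval_mul, eval_sub, eval_X, eval_C]
      constructor
      · intro h1
        rcases mul_eq_zero.mp h1 with h2 | h2
        · exact h2
        · exact absurd (sub_eq_zero.mp h2).symm h2q
      · intro h1; rw [h1, zero_mul]
    by_cases h' : f₀.eval (-q) = 0
    · have e2 : fac (f₀ * (X - C q)) (-q) = 1 := by unfold fac; rw [if_pos (hev.mpr h')]
      rw [e2, mul_one, mul_comm, map_mul, Module.End.mul_apply, hlin, ← hω]
      have s2 := rel_two hq h12 h21 hP hc0 hstar hsq (by ring : (-q) ^ 2 = q ^ 2) h' hcq'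
      rw [← hω, neg_smul, ← sub_eq_add_neg] at s2
      exact s2
    · have e2 : fac (f₀ * (X - C q)) (-q) = X - C (-q) := by
        unfold fac
        rw [if_neg (fun h1 => h' (hev.mp h1))]
      rw [e2, show f₀ * (X - C q) * (X - C (-q)) = (X ^ 2 - C (q ^ 2)) * f₀ by
        rw [map_pow, map_neg]; ring, map_mul, Module.End.mul_apply, map_sub, map_pow, aeval_X,
        aeval_C, LinearMap.sub_apply, Module.algebraMap_end_apply, pow_two, Module.End.mul_apply,
        ← hω, r1, sub_self]

end

/-- The eigenvalues different from `-q` are simple roots. -/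
theorem polF_simple {f : L[X]} (hf : Squarefree f) {q α : L} (hα : α ≠ -q)
    (h : (X - C α) * (X - C α) ∣ polF f q) : False := by
  have hirr := irreducible_X_sub_C α
  have hp := hirr.prime
  have h1 : ¬ (X - C α) ∣ (X + C q : L[X]) := by
    intro h1
    have := dvd_iff_isRoot.mp h1
    rw [IsRoot, eval_add, eval_X, eval_C] at this
    exact hα (eq_neg_of_add_eq_zero_left this)
  have h2 : (X - C α) * (X - C α) ∣ f * fac f q := by
    unfold polF at h
    have hcop : IsCoprime ((X - C α) * (X - C α)) (X + C q : L[X]) := by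
      have h3 : IsCoprime (X - C α) (X + C q : L[X]) := hirr.coprime_iff_not_dvd.mpr h1
      exact h3.mul_left h3
    exact hcop.dvd_of_dvd_mul_right h
  exact hirr.not_isUnit (squarefree_fac hf q _ h2)

end Pool.Agent.Helper9.SS
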