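import Mathlib
import Pool.Agent.Helper9.SS.Defs
import Pool.Agent.Helper9.SS.Kill

/-! Project SS (MP_1fe969_ag). The eigenspaces of `s`. -/

set_option autoImplicit false

namespace Pool.Agent.Helper9.SS

open IntermediateField Polynomial
open Pool.Agent.Helper75.QC (Uniruled IsFrob)
open Pool.Agent.Helper9.CHI (HasVoisinChi)

section ring

variable {L E : Type} [Field L] [CharZero L] [Ring E] [Algebra L E]

/-- the sum of the `χ ^ (-i) S ^ i` -/
noncomputable def eig (χ : L) (m : ℕ) (S : E) : E := ∑ i ∈ Finset.range m, χ⁻¹ ^ i • S ^ i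

theorem commute_eig {χ : L} {m : ℕ} {S F : E} (h : Commute F S) : Commute F (eig χ m S) := by
  unfold eig
  exact Commute.sum_right _ _ _ fun i _ => (h.pow_right i).smul_right _

theorem commute_aeval_right {F S : E} (h : Commute F S) (g : L[X]) : Commute F (aeval S g) := by
  induction g using Polynomial.induction_on' with
  | add p q hp hq => rw [map_add]; exact hp.add_right hq
  | monomial n a =>
    rw [aeval_monomial]
    exact (Algebra.commute_algebraMap_right a F).mul_right (h.pow_right n)

theorem mul_eig {χ : L} (hχ : χ ≠ 0) {m : ℕ} (hχm : χ ^ m = 1) {S : E} (hS : S ^ m = 1) :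
    S * eig χ m S = χ • eig χ m S := by
  unfold eig
  rw [Finset.mul_sum, Finset.smul_sum]
  have h1 : ∀ i, S * χ⁻¹ ^ i • S ^ i = χ • (χ⁻¹ ^ (i + 1) • S ^ (i + 1)) := by
    intro i
    rw [mul_smul_comm, ← pow_succ', smul_smul]
    congr 1
    rw [pow_succ', ← mul_assoc, mul_inv_cancel₀ hχ, one_mul]
  rw [Finset.sum_congr rfl fun i _ => h1 i, ← Finset.smul_sum, ← Finset.smul_sum]
  congr 1
  have h2 := Finset.sum_range_succ (fun i => χ⁻¹ ^ i • S ^ i) m
  have e0 : χ⁻¹ ^ m = 1 := by rw [inv_pow, hχm, inv_one]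
  rw [Finset.sum_range_succ', e0, hS] at h2
  simp only [pow_zero, one_smul] at h2
  exact add_right_cancel h2

/-- the inverse of `S` -/
theorem mul_eig' {χ : L} (hχ : χ ≠ 0) {m : ℕ} (hχm : χ ^ m = 1) {S S' : E} (hS : S ^ m = 1)
    (h : S' * S = 1) : S' * eig χ m S = χ⁻¹ • eig χ m S := by
  have h1 := mul_eig hχ hχm hS
  have h2 : S' * (S * eig χ m S) = χ • (S' * eig χ m S) := by rw [h1, mul_smul_comm]
  rw [← mul_assoc, h, one_mul] at h2
  rw [eq_comm, inv_smul_eq_iff₀ hχ]
  exact h2

/-- transposition of the eigenprojector -/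
theorem conj_eig {χ : L} {m : ℕ} {S S' G : E} (h : G * S' = S * G) :
    G * eig χ m S' = eig χ m S * G := by
  have hp : ∀ i : ℕ, G * S' ^ i = S ^ i * G := by
    intro i
    induction i with
    | zero => simp
    | succ i ih => rw [pow_succ, ← mul_assoc, ih, mul_assoc, h, ← mul_assoc, ← pow_succ]
  unfold eig
  rw [Finset.mul_sum, Finset.sum_mul]
  refine Finset.sum_congr rfl fun i _ => ?_
  rw [mul_smul_comm, smul_mul_assoc, hp i]

end ring

section core

variable {L E : Type} [Field L] [CharZero L] [Ring E] [Algebra L E] {num : Set E}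
  (hnum : ∀ a b z, z ∈ num → a * z * b ∈ num) {tr : E →ₗ[L] E}
  (htr : ∀ a b, tr (a * b) = tr b * tr a) (htr1 : tr 1 = 1)

include htr htr1

theorem tr_pow (a : E) (n : ℕ) : tr (a ^ n) = tr a ^ n := by
  induction n with
  | zero => rw [pow_zero, pow_zero, htr1]
  | succ n ih => rw [pow_succ, htr, ih, ← pow_succ']

theorem tr_aeval (a : E) (g : L[X]) : tr (aeval a g) = aeval (tr a) g := by
  induction g using Polynomial.induction_on' with
  | add p q hp hq => rw [map_add, map_add, map_add, hp, hq]
  | monomial n c =>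
    rw [aeval_monomial, aeval_monomial, Algebra.algebraMap_eq_smul_one, smul_mul_assoc, one_mul,
      map_smul, tr_pow htr htr1, smul_mul_assoc, one_mul]

theorem tr_eig (χ : L) (m : ℕ) (S : E) : tr (eig χ m S) = eig χ m (tr S) := by
  unfold eig
  rw [map_sum]
  refine Finset.sum_congr rfl fun i _ => ?_
  rw [map_smul, tr_pow htr htr1]

include hnum

/-- The symmetry of `e g(F) G`, where `G S = S⁻¹ G`. -/
theorem symm_core {χ : L} (hχ : χ ≠ 0) {m : ℕ} (hχm : χ ^ m = 1) {S S' F F' G G' : E}
    (hS : S ^ m = 1) (h1 : S * S' = 1) (h2 : S' * S = 1) (hFS : Commute F S) (hFG : Commute F G)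
    (hGS : G * S = S' * G) (htS : tr S = S') (htF : tr F = F') (htG : tr G = G')
    (hsym : ∀ z ∈ num, S * z = χ • z → z * S = χ⁻¹ • z → tr z = z)
    {g : L[X]} (hg : aeval F g ∈ num) :
    eig χ m S * aeval F g * G = aeval F' g * eig χ m S * G' := by
  have hFS' : Commute F S' := by
    have e1 : F * S' = S' * (S * F) * S' := by rw [← mul_assoc S' S F, h2, one_mul]
    have e2 : S * F = F * S := hFS.eq.symm
    rw [e2, ← mul_assoc, mul_assoc (S' * F) S S', h1, mul_one] at e1
    exact e1
  have hSG : G' * S' = S * G' := by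
    have e1 : tr (G * S) = tr (S' * G) := by rw [hGS]
    rw [htr, htr, htS, htG] at e1
    have e3 : tr S' = S := by
      have e4 : tr (S' * S) = 1 := by rw [h2, htr1]
      rw [htr, htS] at e4
      calc tr S' = (S * S') * tr S' := by rw [h1, one_mul]
        _ = S * (S' * tr S') := by rw [mul_assoc]
        _ = S := by rw [e4, mul_one]
    rw [e3] at e1
    calc G' * S' = (S * S') * G' * S' := by rw [h1, one_mul]
      _ = S * (S' * G') * S' := by rw [mul_assoc S S' G']
      _ = S * (G' * S) * S' := by rw [e1]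
      _ = S * G' * (S * S') := by simp only [mul_assoc]
      _ = S * G' := by rw [h1, mul_one]
  set e := eig χ m S with he
  have hz := hnum e G (aeval F g) hg
  have hcF : Commute F e := commute_eig hFS
  have hcS : Commute S e := commute_eig (Commute.refl S)
  have hcS' : Commute S' e := by
    apply commute_eig
    exact h2.trans h1.symm
  have hSe : S * e = χ • e := mul_eig hχ hχm hS
  have hSe' : S' * e = χ⁻¹ • e := mul_eig' hχ hχm hS h2
  have hz1 : S * (e * aeval F g * G) = χ • (e * aeval F g * G) := by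
    rw [← mul_assoc, ← mul_assoc, hSe, smul_mul_assoc, smul_mul_assoc]
  have hz2 : e * aeval F g * G * S = χ⁻¹ • (e * aeval F g * G) := by
    have hcg : Commute S' (aeval F g) := commute_aeval_right hFS'.symm g
    rw [mul_assoc _ G S, hGS, ← mul_assoc, mul_assoc e, ← hcg.eq, ← mul_assoc, ← hcS'.eq, hSe',
      smul_mul_assoc, smul_mul_assoc]
  have key := hsym _ hz hz1 hz2
  rw [← key, htr, htr, tr_aeval htr htr1, tr_eig htr htr1, htS, htF, htG]
  have hcFG' : Commute F' G' := by
    have e1 : tr (F * G) = tr (G * F) := by rw [hFG.eq]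
    rw [htr, htr, htF, htG] at e1
    exact e1.symm
  have hcg' : Commute G' (aeval F' g) := commute_aeval_right hcFG'.symm g
  rw [← mul_assoc, hcg'.eq, mul_assoc, conj_eig hSG, ← mul_assoc]

end core

end Pool.Agent.Helper9.SS
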