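import Mathlib
import Pool.Agent.Helper9.SS.Key

/-! Project SS (MP_1fe969_ag). The eigenclasses of `s` and an endomorphism which conjugates `s` to its
inverse. -/

set_option autoImplicit false

namespace Pool.Agent.Helper9.SS

open IntermediateField Polynomial
open Pool.Agent.Helper75.QC (Uniruled IsFrob)
open Pool.Agent.Helper9.CHI (HasVoisinChi)

section

variable {p : ℕ} [hpr : Fact p.Prime] {O L : Type} [Field O] [Field L] [CharZero L]
  (T : Motives p O L) {K : Type} [Field K] [Algebra O K] (hK : IsSurface O K)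

include hK

theorem Motives.tr_one : T.tr K 1 = 1 := by
  have h := T.tr_aut hK AlgEquiv.refl
  have h1 : T.cor ((AlgEquiv.refl : K ≃ₐ[O] K) : K →ₐ[O] K) = 1 := T.cor_id K
  rwa [h1, mul_one] at h

theorem Motives.cor_symm (s : K ≃ₐ[O] K) :
    T.cor (s : K →ₐ[O] K) * T.cor (s.symm : K →ₐ[O] K) = 1 ∧
      T.cor (s.symm : K →ₐ[O] K) * T.cor (s : K →ₐ[O] K) = 1 := by
  rw [← T.cor_comp, ← T.cor_comp, ← T.cor_id]
  constructor
  · congr 1
    ext z
    exact s.apply_symm_apply z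
  · congr 1
    ext z
    exact s.symm_apply_apply z

theorem Motives.tr_cor (s : K ≃ₐ[O] K) :
    T.tr K (T.cor (s : K →ₐ[O] K)) = T.cor (s.symm : K →ₐ[O] K) := by
  have h := T.tr_aut hK s
  obtain ⟨h1, -⟩ := T.cor_symm hK s
  calc T.tr K (T.cor (s : K →ₐ[O] K))
      = T.tr K (T.cor (s : K →ₐ[O] K)) * (T.cor (s : K →ₐ[O] K) *
        T.cor (s.symm : K →ₐ[O] K)) := by rw [h1, mul_one]
    _ = T.cor (s.symm : K →ₐ[O] K) := by rw [← mul_assoc, h, one_mul]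

omit hK in
theorem Motives.cor_pow (σ : K →ₐ[O] K) (j : ℕ) : T.cor (σ ^ j) = T.cor σ ^ j := by
  induction j with
  | zero => rw [pow_zero, pow_zero]; exact T.cor_id K
  | succ j ih => rw [pow_succ, pow_succ, ← ih]; exact T.cor_comp (σ ^ j) σ

omit hK in
theorem Motives.cor_aut_pow (s : K ≃ₐ[O] K) {m : ℕ} (hs : s ^ m = 1) :
    T.cor (s : K →ₐ[O] K) ^ m = 1 := by
  have h1 : ∀ j : ℕ, T.cor ((s ^ j : K ≃ₐ[O] K) : K →ₐ[O] K) = T.cor (s : K →ₐ[O] K) ^ j := by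
    intro j
    induction j with
    | zero => rw [pow_zero, pow_zero]; exact T.cor_id K
    | succ j ih =>
      rw [pow_succ, pow_succ, ← ih]
      exact T.cor_comp ((s ^ j : K ≃ₐ[O] K) : K →ₐ[O] K) (s : K →ₐ[O] K)
  rw [← h1, hs]
  exact T.cor_id K

/-- The symmetry, for an endomorphism `ψ` with `ψ s = s⁻¹ ψ`. -/
theorem Motives.symm {s : K ≃ₐ[O] K} {m : ℕ} (hm : m ≠ 0) (hs : s ^ m = 1)
    (hV : HasVoisinChi O K s m) {ψ φ : K →ₐ[O] K} (hψs : ∀ z, ψ (s z) = s.symm (ψ z))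
    (hφs : ∀ z, φ (s z) = s (φ z)) (hφψ : ∀ z, φ (ψ z) = ψ (φ z)) {χ : L} (hχ : χ ≠ 0)
    (hχm : χ ^ m = 1) (hχ1 : χ ≠ 1) {g : L[X]} (hg : aeval (T.cor φ) g ∈ T.num K) :
    eig χ m (T.cor (s : K →ₐ[O] K)) * aeval (T.cor φ) g * T.cor ψ =
      aeval (T.tr K (T.cor φ)) g * eig χ m (T.cor (s : K →ₐ[O] K)) * T.tr K (T.cor ψ) := by
  obtain ⟨h1, h2⟩ := T.cor_symm hK s
  refine symm_core (num := T.num K) (tr := T.tr K) (fun a b z hz => T.num_mul a b z hz)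
    (T.tr_mul K) (T.tr_one hK) hχ hχm (T.cor_aut_pow s hs) h1 h2 ?_ ?_ ?_ (T.tr_cor hK s) rfl
    rfl (fun z hz hz1 hz2 => T.voisin hK s m hm hs hV χ hχ1 z hz hz1 hz2) hg
  · show T.cor φ * T.cor (s : K →ₐ[O] K) = T.cor (s : K →ₐ[O] K) * T.cor φ
    rw [← T.cor_comp, ← T.cor_comp]
    congr 1
    ext z
    exact hφs z
  · show T.cor φ * T.cor ψ = T.cor ψ * T.cor φ
    rw [← T.cor_comp, ← T.cor_comp]
    congr 1
    ext z
    exact hφψ z
  · rw [← T.cor_comp, ← T.cor_comp]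
    congr 1
    ext z
    exact hψs z

/-- the eigenprojector on an eigenvector -/
theorem Motives.act_eig {s : K ≃ₐ[O] K} {m : ℕ} {χ : L} (hχ : χ ≠ 0) {v : T.H K}
    (hv : T.map (s : K →ₐ[O] K) v = χ • v) :
    T.act K hK (eig χ m (T.cor (s : K →ₐ[O] K))) v = (m : L) • v := by
  have h1 : ∀ i : ℕ, (T.act K hK (T.cor (s : K →ₐ[O] K)) ^ i) v = χ ^ i • v := by
    intro i
    induction i with
    | zero => rw [pow_zero, pow_zero, one_smul]; rfl
    | succ i ih =>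
      rw [pow_succ', Module.End.mul_apply, ih, map_smul, T.act_cor hK, hv, smul_smul, ← pow_succ]
  unfold eig
  rw [map_sum, LinearMap.sum_apply]
  have h2 : ∀ i ∈ Finset.range m, T.act K hK (χ⁻¹ ^ i • T.cor (s : K →ₐ[O] K) ^ i) v = v := by
    intro i _
    rw [map_smul, map_pow, LinearMap.smul_apply, h1, smul_smul, ← mul_pow, inv_mul_cancel₀ hχ,
      one_pow, one_smul]
  rw [Finset.sum_congr rfl h2, Finset.sum_const, Finset.card_range, Nat.cast_smul_eq_nsmul]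

/-- **Involutions.** -/
theorem Motives.kill_inv {s : K ≃ₐ[O] K} {m : ℕ} (hm : m ≠ 0) (hs : s ^ m = 1)
    (hV : HasVoisinChi O K s m) {ψ φ : K →ₐ[O] K} (hψ : ∀ z, ψ (ψ z) = z)
    (hψs : ∀ z, ψ (s z) = s.symm (ψ z)) {e : ℕ} (he : 0 < e) (hφ : IsFrob (p ^ e) φ)
    (hφs : ∀ z, φ (s z) = s (φ z)) (hφψ : ∀ z, φ (ψ z) = ψ (φ z)) :
    ∃ f : L[X], Squarefree f ∧ ∀ (χ : L) (v : T.H K), χ ≠ 1 →
      T.map (s : K →ₐ[O] K) v = χ • v → aeval (T.map φ) f v = 0 := by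
  obtain ⟨f₀, hsq, hf₀⟩ := T.weil hK e φ he hφ
  refine ⟨polI f₀ ((p : L) ^ e), squarefree_polI hsq _, fun χ v hχ1 hv => ?_⟩
  by_cases hv0 : v = 0
  · rw [hv0, map_zero]
  have hp0 : (p : L) ≠ 0 := Nat.cast_ne_zero.mpr hpr.out.ne_zero
  -- `χ` is a root of unity
  have hSm : (T.act K hK (T.cor (s : K →ₐ[O] K)) ^ m) v = χ ^ m • v := by
    have h1 : ∀ i : ℕ, (T.act K hK (T.cor (s : K →ₐ[O] K)) ^ i) v = χ ^ i • v := by
      intro i
      induction i with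
      | zero => rw [pow_zero, pow_zero, one_smul]; rfl
      | succ i ih =>
        rw [pow_succ', Module.End.mul_apply, ih, map_smul, T.act_cor hK, hv, smul_smul,
          ← pow_succ]
    exact h1 m
  have hχm : χ ^ m = 1 := by
    rw [← map_pow, T.cor_aut_pow s hs, map_one] at hSm
    have h1 : (χ ^ m - 1) • v = 0 := by
      rw [sub_smul, one_smul, ← hSm]
      exact sub_self v
    rcases smul_eq_zero.mp h1 with h2 | h2
    · exact sub_eq_zero.mp h2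
    · exact absurd h2 hv0
  have hχ : χ ≠ 0 := by
    rintro rfl
    rw [zero_pow hm] at hχm
    exact zero_ne_one hχm
  -- the involution
  let ψe : K ≃ₐ[O] K := AlgEquiv.ofAlgHom ψ ψ (AlgHom.ext hψ) (AlgHom.ext hψ)
  have hG1 : T.cor ψ * T.cor ψ = 1 := by
    rw [← T.cor_comp, ← T.cor_id]
    congr 1
    ext z
    exact hψ z
  have hG : T.tr K (T.cor ψ) = T.cor ψ := by
    have h1 : T.tr K (T.cor ψ) * T.cor ψ = 1 := T.tr_aut hK ψe
    calc T.tr K (T.cor ψ) = T.tr K (T.cor ψ) * (T.cor ψ * T.cor ψ) := by rw [hG1, mul_one]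
      _ = T.cor ψ := by rw [← mul_assoc, h1, one_mul]
  obtain ⟨hFF1, hFF2⟩ := T.tr_frob hK e φ hφ
  set ρ := T.act K hK with hρ
  have hρF : ρ (T.cor φ) = T.map φ := T.act_cor hK φ
  set F' := ρ (T.tr K (T.cor φ)) with hF'
  have h21 : F' * T.map φ = algebraMap L _ (((p : L) ^ e) ^ 2) := by
    rw [← hρF, hF', ← map_mul, hFF1, AlgHom.commutes]
  have h12 : T.map φ * F' = algebraMap L _ (((p : L) ^ e) ^ 2) := by
    rw [← hρF, hF', ← map_mul, hFF2, AlgHom.commutes]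
  have hmL : (m : L) ≠ 0 := Nat.cast_ne_zero.mpr hm
  have hcFS : Commute (T.cor φ) (T.cor (s : K →ₐ[O] K)) := by
    show T.cor φ * T.cor (s : K →ₐ[O] K) = T.cor (s : K →ₐ[O] K) * T.cor φ
    rw [← T.cor_comp, ← T.cor_comp]
    congr 1
    ext z
    exact hφs z
  refine polI_kill (F' := F') (P := 1) (c := 1) (pow_ne_zero e hp0) h12 h21 (fun x hx => ?_)
    one_ne_zero (fun g hg => ?_) hsq ?_ ?_
  · rw [map_one] at hx
    exact hx
  · obtain ⟨h, rfl⟩ := hg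
    have hgn : aeval (T.cor φ) (f₀ * h) ∈ T.num K := by
      rw [map_mul]
      have := T.num_mul (1 : T.E K) (aeval (T.cor φ) h) _ hf₀
      rwa [one_mul] at this
    have h1 := T.symm hK hm hs hV hψs hφs hφψ hχ hχm hχ1 hgn
    rw [hG] at h1
    have h2 := congrArg (fun r => r * T.cor ψ) h1
    simp only [mul_assoc, hG1, mul_one] at h2
    have hce : Commute (eig χ m (T.cor (s : K →ₐ[O] K))) (aeval (T.cor φ) (f₀ * h)) :=
      commute_aeval_right (commute_eig hcFS).symm _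
    rw [hce.eq] at h2
    have h3 := congrArg (fun r => ρ r v) h2
    simp only [map_mul ρ, Module.End.mul_apply] at h3
    rw [hρ, T.act_eig hK hχ hv, ← hρ, ← aeval_algHom_apply, ← aeval_algHom_apply, hρF, map_smul,
      map_smul] at h3
    rw [map_one, one_smul]
    exact smul_right_injective _ hmL h3
  · rw [eval_one]
    norm_num
  · rw [eval_one]
    norm_num

theorem Motives.eig_root {s : K ≃ₐ[O] K} {m : ℕ} (hm : m ≠ 0) (hs : s ^ m = 1) {χ : L} {v : T.H K}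
    (hv0 : v ≠ 0) (hv : T.map (s : K →ₐ[O] K) v = χ • v) : χ ^ m = 1 ∧ χ ≠ 0 := by
  have h1 : ∀ i : ℕ, (T.act K hK (T.cor (s : K →ₐ[O] K)) ^ i) v = χ ^ i • v := by
    intro i
    induction i with
    | zero => rw [pow_zero, pow_zero, one_smul]; rfl
    | succ i ih =>
      rw [pow_succ', Module.End.mul_apply, ih, map_smul, T.act_cor hK, hv, smul_smul, ← pow_succ]
  have hSm := h1 m
  have hχm : χ ^ m = 1 := by
    rw [← map_pow, T.cor_aut_pow s hs, map_one] at hSm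
    have h1 : (χ ^ m - 1) • v = 0 := by
      rw [sub_smul, one_smul, ← hSm]
      exact sub_self v
    rcases smul_eq_zero.mp h1 with h2 | h2
    · exact sub_eq_zero.mp h2
    · exact absurd h2 hv0
  refine ⟨hχm, ?_⟩
  rintro rfl
  rw [zero_pow hm] at hχm
  exact zero_ne_one hχm

omit hpr hK in
theorem isFrob_pow {e : ℕ} {φ : K →ₐ[O] K} (h : IsFrob (p ^ e) φ) (k : ℕ) :
    IsFrob (p ^ (e * k)) (φ ^ k) := by
  show adjoin O _ = ⊤
  rw [eq_top_iff]
  have h4 : adjoin O {a : K | φ a = a ^ p ^ e} = ⊤ := h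
  rw [← h4]
  apply adjoin.mono
  intro a ha
  show (φ ^ k) a = a ^ p ^ (e * k)
  induction k with
  | zero => simp
  | succ k ih =>
    have h5 : φ a = a ^ p ^ e := ha
    rw [pow_succ', AlgHom.mul_apply, ih, map_pow, h5, ← pow_mul, Nat.mul_succ, pow_add,
      mul_comm (p ^ e)]

/-- **Frobenius.** -/
theorem Motives.kill_frob {s : K ≃ₐ[O] K} {m : ℕ} (hm : m ≠ 0) (hs : s ^ m = 1)
    (hV : HasVoisinChi O K s m) {e : ℕ} {ψ : K →ₐ[O] K} (he : 0 < e) (hψ : IsFrob (p ^ e) ψ)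
    (hψs : ∀ z, ψ (s z) = s.symm (ψ z)) :
    ∃ f : L[X], Squarefree f ∧ ∀ (χ : L) (v : T.H K), χ ≠ 1 →
      T.map (s : K →ₐ[O] K) v = χ • v →
        aeval (T.map (ψ ^ 2)) (polF f ((p : L) ^ (e * 2))) v = 0 := by
  have hφ := isFrob_pow hψ 2
  obtain ⟨f₀, hsq, hf₀⟩ := T.weil hK (e * 2) (ψ ^ 2) (by omega) hφ
  refine ⟨f₀, hsq, fun χ v hχ1 hv => ?_⟩
  by_cases hv0 : v = 0
  · rw [hv0, map_zero]
  have hp0 : (p : L) ≠ 0 := Nat.cast_ne_zero.mpr hpr.out.ne_zero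
  obtain ⟨hχm, hχ⟩ := T.eig_root hK hm hs hv0 hv
  have hψ2 : ∀ z, (ψ ^ 2) z = ψ (ψ z) := fun z => by rw [sq]; rfl
  have hψs' : ∀ z, ψ (s.symm z) = s (ψ z) := by
    intro z
    have h1 := hψs (s.symm z)
    rw [AlgEquiv.apply_symm_apply] at h1
    rw [h1, AlgEquiv.apply_symm_apply]
  have hφs : ∀ z, (ψ ^ 2) (s z) = s ((ψ ^ 2) z) := by
    intro z
    rw [hψ2, hψ2, hψs, hψs']
  have hφψ : ∀ z, (ψ ^ 2) (ψ z) = ψ ((ψ ^ 2) z) := by
    intro z
    rw [hψ2, hψ2]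
  have hG2 : T.cor (ψ ^ 2) = T.cor ψ * T.cor ψ := by rw [T.cor_pow, sq]
  obtain ⟨hGG, -⟩ := T.tr_frob hK e ψ hψ
  obtain ⟨hFF1, hFF2⟩ := T.tr_frob hK (e * 2) (ψ ^ 2) hφ
  set ρ := T.act K hK with hρ
  have hρF : ρ (T.cor (ψ ^ 2)) = T.map (ψ ^ 2) := T.act_cor hK _
  set F' := ρ (T.tr K (T.cor (ψ ^ 2))) with hF'
  have h21 : F' * T.map (ψ ^ 2) = algebraMap L _ (((p : L) ^ (e * 2)) ^ 2) := by
    rw [← hρF, hF', ← map_mul, hFF1, AlgHom.commutes]
  have h12 : T.map (ψ ^ 2) * F' = algebraMap L _ (((p : L) ^ (e * 2)) ^ 2) := by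
    rw [← hρF, hF', ← map_mul, hFF2, AlgHom.commutes]
  have hmL : (m : L) ≠ 0 := Nat.cast_ne_zero.mpr hm
  have hcFS : Commute (T.cor (ψ ^ 2)) (T.cor (s : K →ₐ[O] K)) := by
    show T.cor (ψ ^ 2) * T.cor (s : K →ₐ[O] K) = T.cor (s : K →ₐ[O] K) * T.cor (ψ ^ 2)
    rw [← T.cor_comp, ← T.cor_comp]
    congr 1
    ext z
    exact hφs z
  have hq0 : (p : L) ^ (e * 2) ≠ 0 := pow_ne_zero _ hp0
  refine polF_kill (F' := F') (P := X) (c := (p : L) ^ (e * 2)) hq0 h12 h21 (fun x hx => ?_)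
    hq0 (fun g hg => ?_) hsq ?_
  · rw [aeval_X] at hx
    have h1 := LinearMap.congr_fun h21 x
    rw [Module.End.mul_apply, hx, map_zero, Module.algebraMap_end_apply] at h1
    rcases smul_eq_zero.mp h1.symm with h2 | h2
    · exact absurd h2 (pow_ne_zero 2 hq0)
    · exact h2
  · obtain ⟨h, rfl⟩ := hg
    have hgn : aeval (T.cor (ψ ^ 2)) (f₀ * h) ∈ T.num K := by
      rw [map_mul]
      have := T.num_mul (1 : T.E K) (aeval (T.cor (ψ ^ 2)) h) _ hf₀
      rwa [one_mul] at this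
    have h1 := T.symm hK hm hs hV hψs hφs hφψ hχ hχm hχ1 hgn
    have h2 := congrArg (fun r => r * T.cor ψ) h1
    simp only [mul_assoc, hGG] at h2
    rw [← hG2, ← mul_assoc, ← mul_assoc, ← Algebra.commutes, ← Algebra.smul_def] at h2
    have hce : Commute (eig χ m (T.cor (s : K →ₐ[O] K))) (aeval (T.cor (ψ ^ 2)) (f₀ * h)) :=
      commute_aeval_right (commute_eig hcFS).symm _
    have hcF : Commute (eig χ m (T.cor (s : K →ₐ[O] K))) (T.cor (ψ ^ 2)) :=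
      (commute_eig hcFS).symm
    rw [hce.eq, mul_assoc, hcF.eq] at h2
    have h3 := congrArg (fun r => ρ r v) h2
    simp only [map_mul ρ, map_smul ρ, Module.End.mul_apply, LinearMap.smul_apply] at h3
    rw [hρ, T.act_eig hK hχ hv, ← hρ, ← aeval_algHom_apply, ← aeval_algHom_apply, hρF, map_smul,
      map_smul, map_smul, smul_comm _ (m : L)] at h3
    have h4 := smul_right_injective _ hmL h3
    rw [aeval_X]
    have h5 : aeval (T.map (ψ ^ 2)) (f₀ * h) ((T.map (ψ ^ 2)) v) =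
        (T.map (ψ ^ 2)) (aeval (T.map (ψ ^ 2)) (f₀ * h) v) := by
      have := comm_aeval (F := T.map (ψ ^ 2)) (F' := T.map (ψ ^ 2)) rfl (f₀ * h) X v
      rw [aeval_X] at this
      exact this
    rw [← h5, h4, ← pow_mul]
  · rw [eval_X]
    intro h
    have : (2 : L) * (p : L) ^ (e * 2) = 0 := by linear_combination h
    rcases mul_eq_zero.mp this with h1 | h1
    · exact two_ne_zero h1
    · exact hq0 h1

end

end Pool.Agent.Helper9.SS
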