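import Mathlib
import Pool.Agent.Helper9.SS.Inv
import Pool.Agent.Helper9.SS.Frob

/-! Project SS (MP_1fe969_ag). Surfaces with an automorphism which is conjugate to its inverse by an
involution. -/

set_option autoImplicit false

namespace Pool.Agent.Helper9.SS

open IntermediateField Polynomial Module
open Pool.Agent.Helper75.QC (Uniruled IsFrob hom_ext)
open Pool.Agent.Helper75.TC (frob_set)
open Pool.Agent.Helper9.CHI (HasVoisinChi)

section

variable {L V : Type} [Field L] [CharZero L] [IsAlgClosed L] [AddCommGroup V] [Module L V]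
  [FiniteDimensional L V]

/-- the eigenvectors of an endomorphism of finite order -/
theorem span_eigen (S : Module.End L V) {m : ℕ} (hm : m ≠ 0) (hS : S ^ m = 1)
    (W : Submodule L V) (h : ∀ (χ : L) (v : V), S v = χ • v → v ∈ W) (v : V) : v ∈ W := by
  have h1 : S.IsSemisimple := by
    refine Module.End.isSemisimple_of_squarefree_aeval_eq_zero (p := X ^ m - C 1) ?_ ?_
    · exact (separable_X_pow_sub_C (1 : L) (Nat.cast_ne_zero.mpr hm) one_ne_zero).squarefree
    · rw [map_sub, map_pow, aeval_X, aeval_C, map_one, hS, sub_self]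
  have h2 := Module.End.iSup_maxGenEigenspace_eq_top S
  have h3 : (⊤ : Submodule L V) ≤ W := by
    rw [← h2]
    refine iSup_le fun χ => ?_
    rw [h1.isFinitelySemisimple.maxGenEigenspace_eq_eigenspace]
    intro w hw
    exact h χ w (Module.End.mem_eigenspace_iff.1 hw)
  exact h3 trivial

end

section

variable {O L : Type} [Field O] [Field L]

/-- the invariant classes -/
theorem fixed_zero (T : Coh O L) {K : Type} [Field K] [Algebra O K] {s : K ≃ₐ[O] K} {m : ℕ}
    (hm : m ≠ 0) (hs : s ^ m = 1) (R : IntermediateField O K)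
    (hle : fixedField (Subgroup.zpowers s) ≤ R) (hR : Uniruled O R 2) (v : T.H K)
    (hv : T.map (s : K →ₐ[O] K) v = v) : v = 0 := by
  classical
  have hfin : Finite (Subgroup.zpowers s) := by
    have h1 : IsOfFinOrder s := isOfFinOrder_iff_pow_eq_one.2 ⟨m, Nat.pos_of_ne_zero hm, hs⟩
    exact h1.finite_zpowers
  set N := fixedField (Subgroup.zpowers s) with hN
  haveI hG : IsGalois N K := IsGalois.of_fixed_field K (Subgroup.zpowers s)
  haveI hF : FiniteDimensional N K := by
    have := Fintype.ofFinite (Subgroup.zpowers s)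
    exact inferInstanceAs (FiniteDimensional (FixedPoints.subfield (Subgroup.zpowers s) K) K)
  have hpow : ∀ (τ : K ≃ₐ[O] K), τ ∈ Subgroup.zpowers s → T.map (τ : K →ₐ[O] K) v = v := by
    intro τ hτ
    have h1 : IsOfFinOrder s := isOfFinOrder_iff_pow_eq_one.2 ⟨m, Nat.pos_of_ne_zero hm, hs⟩
    rw [h1.mem_zpowers_iff_mem_range_orderOf] at hτ
    obtain ⟨j, -, hj⟩ := Finset.mem_image.1 hτ
    have hj' : s ^ j = τ := hj
    rw [← hj']
    clear hτ hj hj'
    induction j with
    | zero => rw [pow_zero]; exact LinearMap.congr_fun (T.map_id K) v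
    | succ j ih =>
      have h2 : ((s ^ (j + 1) : K ≃ₐ[O] K) : K →ₐ[O] K) =
          ((s ^ j : K ≃ₐ[O] K) : K →ₐ[O] K).comp (s : K →ₐ[O] K) := by
        ext z
        rfl
      rw [h2, T.map_comp, LinearMap.comp_apply, hv, ih]
  obtain ⟨t, ht⟩ := T.descent K N v (fun τ => by
    obtain ⟨g, hg⟩ := (FixedPoints.toAlgAut_bijective (Subgroup.zpowers s) K).2
      (AlgEquiv.ofBijective τ (Algebra.IsAlgebraic.algHom_bijective τ))
    have h1 : τ.restrictScalars O = ((g : K ≃ₐ[O] K) : K →ₐ[O] K) := by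
      ext z
      exact (congrArg (fun r => r z) hg).symm
    rw [h1]
    exact hpow g g.2)
  have h1 : (R.val).comp (IntermediateField.inclusion hle) = N.val := rfl
  rw [← ht, ← h1, T.map_comp, LinearMap.comp_apply,
    T.uniruled R hR (T.map (IntermediateField.inclusion hle) t), map_zero]

end

section

variable {p : ℕ} [hpr : Fact p.Prime] {O L : Type} [Field O] [CharP O p] [Field L] [CharZero L]
  [IsAlgClosed L]

/-- **Surfaces with an automorphism which is conjugate to its inverse by an involution.** -/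
theorem Motives.good_symm (hΩ : ∀ c : O, ∃ k : ℕ, 0 < k ∧ c ^ p ^ k = c) (T : Motives p O L)
    {K : Type} [Field K] [Algebra O K] (hK : IsSurface O K) {s : K ≃ₐ[O] K} {m : ℕ} (hm : m ≠ 0)
    (hs : s ^ m = 1) (hV : HasVoisinChi O K s m) {ψ : K →ₐ[O] K} (hψ : ∀ z, ψ (ψ z) = z)
    (hψs : ∀ z, ψ (s z) = s.symm (ψ z))
    (hfix : ∀ v : T.H K, T.map (s : K →ₐ[O] K) v = v → v = 0) : Good p T.toCoh K := by
  refine Good.of_pow T.toCoh hK.1 fun e φ he hφ => ?_
  obtain ⟨Q, hQ⟩ := hK.1
  obtain ⟨k, hk, h1⟩ := frob_set hΩ φ hφ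
    ((Q : Set K) ∪ (s '' (Q : Set K) ∪ ψ '' (Q : Set K)))
    (Q.finite_toSet.union ((Q.finite_toSet.image _).union (Q.finite_toSet.image _)))
  have h2 := h1 k dvd_rfl
  have hφs : ∀ z, (φ ^ k) (s z) = s ((φ ^ k) z) := by
    have h3 : (φ ^ k).comp (s : K →ₐ[O] K) = (s : K →ₐ[O] K).comp (φ ^ k) := by
      refine hom_ext (Q : Set K) hQ _ _ ?_
      intro a ha
      rw [AlgHom.comp_apply, AlgHom.comp_apply, h2 a (Or.inl ha)]
      change (φ ^ k) (s a) = s (a ^ p ^ (e * k))
      rw [h2 _ (Or.inr (Or.inl ⟨a, ha, rfl⟩)), map_pow]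
    exact AlgHom.congr_fun h3
  have hφψ : ∀ z, (φ ^ k) (ψ z) = ψ ((φ ^ k) z) := by
    have h3 : (φ ^ k).comp ψ = ψ.comp (φ ^ k) := by
      refine hom_ext (Q : Set K) hQ _ _ ?_
      intro a ha
      rw [AlgHom.comp_apply, AlgHom.comp_apply, h2 a (Or.inl ha),
        h2 _ (Or.inr (Or.inr ⟨a, ha, rfl⟩)), map_pow]
    exact AlgHom.congr_fun h3
  obtain ⟨f, hsq, hf⟩ := T.kill_inv hK hm hs hV hψ hψs (Nat.mul_pos he hk) (isFrob_pow hφ k)
    hφs hφψ
  have hfin : FiniteDimensional L (T.H K) := T.fin K hK.1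
  refine ⟨k, hk, Module.End.isSemisimple_of_squarefree_aeval_eq_zero hsq ?_⟩
  have hSm : (T.map (s : K →ₐ[O] K)) ^ m = 1 := by
    rw [← T.act_cor hK, ← map_pow, T.cor_aut_pow s hs, map_one]
  ext v
  have h4 := span_eigen (T.map (s : K →ₐ[O] K)) hm hSm
    (LinearMap.ker (aeval (T.map (φ ^ k)) f)) (fun χ w hw => by
      rw [LinearMap.mem_ker]
      by_cases hχ : χ = 1
      · rw [hχ, one_smul] at hw
        rw [hfix w hw, map_zero]
      · exact hf χ w hχ hw) v
  exact h4

end

end Pool.Agent.Helper9.SS
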