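import Mathlib
import Pool.Agent.Helper9.SS.Good
import Pool.Agent.Helper9.CHI.Dick
import Pool.Agent.Helper43.CH.Main
import Pool.Agent.Helper73.CHA.Main
import Pool.Agent.Helper40.CX.CHV.ModelA
import Pool.Agent.Helper40.CX.CHV.MainM

/-! Project SS (MP_1fe969_ag). Base changes of rational elliptic surfaces. -/

set_option autoImplicit false

namespace Pool.Agent.Helper9.SS

open IntermediateField Polynomial Module
open Pool.Agent.Helper75.QC (Uniruled IsFrob)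
open Pool.Agent.Helper9.CHI (HasVoisinChi IsDickson dickA dickB)
open Pool.Agent.Helper43.CH (IsModel)
open Pool.Agent.Helper73.CHA (IsModelA IsModelL)

/-- `s` is the automorphism `w ↦ ζ w` or `w ↦ w + 1` of `M = O(x, y, w)`,
`y ^ 2 = x ^ 3 + A(u) x + B(u)`, where `u = w ^ m` and `ζ` is a primitive `m`-th root of unity, or
`u = w ^ p - w`. -/
def IsBC (p : ℕ) (O : Type) {M : Type} [Field O] [Field M] [Algebra O M] (s : M ≃ₐ[O] M) : Prop :=
  ∃ (A B : O[X]) (x y w : M), IsRational A B ∧ s x = x ∧ s y = y ∧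
    ((∃ (m : ℕ) (ζ : O), IsModel O m A B x y w ∧ (m : O) ≠ 0 ∧
        IsPrimitiveRoot ζ m ∧ s w = algebraMap O M ζ * w) ∨
      (IsModelA O p A B x y w ∧ s w = w + 1))

section

variable {p : ℕ} [hpr : Fact p.Prime] {O : Type} [Field O] [CharP O p] [IsAlgClosed O]
  {M : Type} [Field M] [Algebra O M] {s : M ≃ₐ[O] M}

/-- the properties of the automorphism -/
theorem IsBC.all (H : CX.CHV.FunMul) (hp3 : 3 < p) (h : IsBC p O s) : IsSurface O M ∧
    ∃ m : ℕ, m ≠ 0 ∧ s ^ m = 1 ∧ HasVoisinChi O M s m ∧ ∃ R : IntermediateField O M,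
      fixedField (Subgroup.zpowers s) ≤ R ∧ Uniruled O R 2 := by
  have h2 : (2 : O) ≠ 0 := by
    have h3 : ((2 : ℕ) : O) ≠ 0 := fun h0 => by
      rw [CharP.cast_eq_zero_iff O p] at h0
      exact absurd (Nat.le_of_dvd (by norm_num) h0) (by omega)
    exact_mod_cast h3
  have h3 : (3 : O) ≠ 0 := by
    have h3 : ((3 : ℕ) : O) ≠ 0 := fun h0 => by
      rw [CharP.cast_eq_zero_iff O p] at h0
      exact absurd (Nat.le_of_dvd (by norm_num) h0) (by omega)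
    exact_mod_cast h3
  haveI : CX.Good O := ⟨h2, h3⟩
  obtain ⟨A, B, x, y, w, hAB, hx, hy, h⟩ := h
  rcases h with ⟨m, ζ, h, hm, hζ, hw⟩ | ⟨h, hw⟩
  · have hm0 : m ≠ 0 := by rintro rfl; exact hm Nat.cast_zero
    refine ⟨⟨h.fg, h.trdeg⟩, m, hm0, h.pow_rot hζ.pow_eq_one hx hy hw, ?_,
      adjoin O {x, y, w ^ m}, h.fixedField_le hm hζ hx hy hw, ?_⟩
    · exact CX.CHV.hasVoisinChi_modelM H hAB.degA hAB.degB hAB.ind hm h hζ s hx hy hw
    · exact Pool.Agent.Helper43.CH.uniruled_rat hAB.degA hAB.degB h.eqn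
  · exact ⟨⟨h.fg, h.trdeg⟩, p, hpr.out.ne_zero, h.pow_rot hx hy hw,
      CX.CHV.hasVoisinChi_modelA h hAB.degA hAB.degB hAB.ind s hx hy hw,
      _, le_rfl, h.fixed_uniruled hAB.degA hAB.degB s hx hy hw⟩

end

/-- an automorphism which is conjugate to its inverse by an involution -/
def IsDual (p : ℕ) (O M : Type) [Field O] [Field M] [Algebra O M] : Prop :=
  ∃ s ψ : M ≃ₐ[O] M, IsBC p O s ∧ (∀ z, ψ (ψ z) = z) ∧ ∀ z, ψ (s z) = s.symm (ψ z)

section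

variable {p : ℕ} [hpr : Fact p.Prime] {O L : Type} [Field O] [CharP O p] [IsAlgClosed O] [Field L]
  [CharZero L] [IsAlgClosed L]

theorem Motives.good_dual (H : CX.CHV.FunMul) (hp3 : 3 < p)
    (hΩ : ∀ c : O, ∃ k : ℕ, 0 < k ∧ c ^ p ^ k = c)
    (T : Motives p O L) {M : Type} [Field M] [Algebra O M] (h : IsDual p O M) :
    (⊤ : IntermediateField O M).FG ∧ Good p T.toCoh M := by
  obtain ⟨s, ψ, hs, hψ, hψs⟩ := h
  obtain ⟨hM, m, hm, hsm, hV, R, hR, hU⟩ := hs.all H hp3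
  exact ⟨hM.1, T.good_symm hΩ hM hm hsm hV (ψ := (ψ : M →ₐ[O] M)) hψ hψs
    (fixed_zero T.toCoh hm hsm R hR hU)⟩

end

/-! The examples. -/

section

variable {p : ℕ} [hpr : Fact p.Prime] {O : Type} [Field O] [CharP O p] [IsAlgClosed O]
  {M : Type} [Field M] [Algebra O M] {A B : O[X]} {x y w : M}

theorem dual_mul {m : ℕ} (h : IsModel O m A B x y w) (hm : (m : O) ≠ 0) (hAB : IsRational A B)
    (ha : ∀ i ≤ 4, A.coeff i = A.coeff (4 - i))
    (hb : ∀ i ≤ 6, B.coeff i = B.coeff (6 - i)) : IsDual p O M := by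
  have hm0 : m ≠ 0 := by rintro rfl; exact hm Nat.cast_zero
  haveI : NeZero (m : O) := ⟨hm⟩
  obtain ⟨ζ, hζ⟩ : ∃ ζ : O, IsPrimitiveRoot ζ m :=
    HasEnoughRootsOfUnity.exists_primitiveRoot O m
  obtain ⟨s, hx, hy, hw⟩ := h.exists_rot hζ.pow_eq_one (hζ.ne_zero hm0)
  obtain ⟨ψ, h1, h2, -⟩ := h.exists_inv hAB.degA hAB.degB hζ.pow_eq_one (hζ.ne_zero hm0) ha hb hx
    hy hw
  exact ⟨s, ψ, ⟨A, B, x, y, w, hAB, hx, hy, Or.inl ⟨m, ζ, h, hm, hζ, hw⟩⟩, h1, h2⟩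

theorem dual_as (hp2 : p ≠ 2) (h : IsModelA O p A B x y w) (hAB : IsRational A B)
    (ha : A.comp (-X) = A) (hb : B.comp (-X) = B) : IsDual p O M := by
  obtain ⟨s, hx, hy, hw⟩ := h.exists_rot
  obtain ⟨ψ, h1, h2⟩ := h.psi_even hp2 ha hb s hx hy hw
  exact ⟨s, AlgEquiv.ofAlgHom ψ ψ (AlgHom.ext h2) (AlgHom.ext h2),
    ⟨A, B, x, y, w, hAB, hx, hy, Or.inr ⟨h, hw⟩⟩, h2, h1⟩

end

end Pool.Agent.Helper9.SS
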