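import Mathlib
import Pool.Agent.Helper75.TC.Frob

/-! Project SS (MP_1fe969_ag). The restriction of a relative Frobenius to a subfield. -/

set_option autoImplicit false

namespace Pool.Agent.Helper9.SS

open IntermediateField Polynomial
open Pool.Agent.Helper75.QC (IsFrob)
open Pool.Agent.Helper75.TC (frob_elem)

variable {p : ℕ} [hpr : Fact p.Prime] {O : Type} [Field O] [CharP O p] [IsAlgClosed O]
  {K : Type} [Field K] [Algebra O K] {e : ℕ}

/-- the `q`-th roots -/
theorem exists_root (φ : K →ₐ[O] K) (h : IsFrob (p ^ e) φ) (z : K) :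
    ∃ z' : K, z' ^ p ^ e = φ z := by
  have hK : CharP K p := charP_of_injective_algebraMap (algebraMap O K).injective p
  have hz : z ∈ adjoin O {a : K | φ a = a ^ p ^ e} := by
    have h1 : adjoin O {a : K | φ a = a ^ p ^ e} = ⊤ := h
    rw [h1]
    exact mem_top
  induction hz using adjoin_induction with
  | mem b hb => exact ⟨b, hb.symm⟩
  | algebraMap c =>
    obtain ⟨d, hd⟩ := IsAlgClosed.exists_pow_nat_eq c (pow_pos hpr.out.pos e)
    exact ⟨algebraMap O K d, by rw [← map_pow, hd, AlgHom.commutes]⟩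
  | add a b _ _ ha hb =>
    obtain ⟨a', ha⟩ := ha
    obtain ⟨b', hb⟩ := hb
    exact ⟨a' + b', by rw [map_add, ← ha, ← hb, add_pow_char_pow]⟩
  | inv a _ ha =>
    obtain ⟨a', ha⟩ := ha
    exact ⟨a'⁻¹, by rw [map_inv₀, ← ha, inv_pow]⟩
  | mul a b _ _ ha hb =>
    obtain ⟨a', ha⟩ := ha
    obtain ⟨b', hb⟩ := hb
    exact ⟨a' * b', by rw [map_mul, ← ha, ← hb, mul_pow]⟩

omit hpr [Algebra O K] in
theorem pow_inj (p e : ℕ) [Fact p.Prime] [CharP K p] {a b : K} (h : a ^ p ^ e = b ^ p ^ e) :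
    a = b := by
  exact iterateFrobenius_inj K p e (by rw [iterateFrobenius_def, iterateFrobenius_def]; exact h)

/-- the semilinear automorphism -/
theorem exists_semi (φ : K →ₐ[O] K) (h : IsFrob (p ^ e) φ) :
    ∃ τ : K →+* K, ∀ z, τ z ^ p ^ e = φ z := by
  have hK : CharP K p := charP_of_injective_algebraMap (algebraMap O K).injective p
  choose τ hτ using exists_root φ h
  refine ⟨{ toFun := τ
            map_one' := ?_
            map_mul' := ?_
            map_zero' := ?_
            map_add' := ?_ }, hτ⟩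
  · exact pow_inj p e (by rw [hτ, map_one, one_pow])
  · intro a b
    exact pow_inj p e (by rw [hτ, map_mul, mul_pow, hτ, hτ])
  · exact pow_inj p e (by
      rw [hτ, map_zero, zero_pow (pow_pos hpr.out.pos e).ne'])
  · intro a b
    exact pow_inj p e (by rw [hτ, map_add, add_pow_char_pow, hτ, hτ])

theorem semi_pow {φ : K →ₐ[O] K} {τ : K →+* K} (hτ : ∀ z, τ z ^ p ^ e = φ z) (k : ℕ) (z : K) :
    (τ ^ k) z ^ p ^ (e * k) = (φ ^ k) z := by
  induction k generalizing z with
  | zero => simp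
  | succ k ih =>
    have h1 : (τ ^ (k + 1)) z = (τ ^ k) (τ z) := by rw [pow_succ]; rfl
    have h2 : (φ ^ (k + 1)) z = (φ ^ k) (φ z) := by rw [pow_succ]; rfl
    rw [h1, h2, Nat.mul_succ, pow_add, pow_mul, ih, ← map_pow, hτ]

/-- **The restriction of a relative Frobenius.** -/
theorem isFrob_sub (hΩ : ∀ c : O, ∃ k : ℕ, 0 < k ∧ c ^ p ^ k = c) (he : 0 < e) (φ : K →ₐ[O] K)
    (h : IsFrob (p ^ e) φ) {M : Type} [Field M] [Algebra O M] (ι : M →ₐ[O] K)
    (hM : ∀ a : K, a ^ p ^ e ∈ ι.fieldRange → a ∈ ι.fieldRange)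
    (φM : M →ₐ[O] M) (hφM : ∀ a : M, ι (φM a) = φ (ι a)) : IsFrob (p ^ e) φM := by
  obtain ⟨τ, hτ⟩ := exists_semi φ h
  have hK : CharP K p := charP_of_injective_algebraMap (algebraMap O K).injective p
  -- `τ` maps `M` to `M`
  have hτM : ∀ a ∈ ι.fieldRange, τ a ∈ ι.fieldRange := by
    rintro _ ⟨a, rfl⟩
    apply hM
    rw [hτ]
    exact ⟨φM a, hφM a⟩
  have hτM' : ∀ (i : ℕ), ∀ a ∈ ι.fieldRange, (τ ^ i) a ∈ ι.fieldRange := by
    intro i
    induction i with
    | zero => intro a ha; exact ha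
    | succ i ih =>
      intro a ha
      have h1 : (τ ^ (i + 1)) a = (τ ^ i) (τ a) := by rw [pow_succ]; rfl
      rw [h1]
      exact ih _ (hτM a ha)
  show adjoin O {a : M | φM a = a ^ p ^ e} = ⊤
  rw [eq_top_iff]
  intro a₀ _
  obtain ⟨a, ha₀⟩ : ∃ a : K, a = ι a₀ := ⟨_, rfl⟩
  have ha : a ∈ ι.fieldRange := ⟨a₀, ha₀.symm⟩
  obtain ⟨k, hk, h1⟩ := frob_elem hΩ φ h a
  have hQ1 : 1 < p ^ e := Nat.one_lt_pow he.ne' hpr.out.one_lt
  have hτk : (τ ^ k) a = a := by
    apply pow_inj p (e * k)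
    rw [semi_pow hτ, h1]
  -- the root of unity
  set N := p ^ (e * k) - 1 with hN
  have hQk : 1 < p ^ (e * k) := Nat.one_lt_pow (Nat.mul_pos he hk).ne' hpr.out.one_lt
  have hNO : ((N : ℕ) : O) ≠ 0 := by
    rw [hN, Nat.cast_sub hQk.le, Nat.cast_pow, CharP.cast_eq_zero, zero_pow
      (Nat.mul_pos he hk).ne', Nat.cast_one, zero_sub]
    exact neg_ne_zero.2 one_ne_zero
  haveI : NeZero ((N : ℕ) : O) := ⟨hNO⟩
  obtain ⟨γ, hγ⟩ : ∃ γ : O, IsPrimitiveRoot γ N := HasEnoughRootsOfUnity.exists_primitiveRoot O N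
  have hγk : γ ^ p ^ (e * k) = γ := by
    have h2 : p ^ (e * k) = N + 1 := by omega
    rw [h2, pow_succ, hγ.pow_eq_one, one_mul]
  have hγ0 : γ ≠ 0 := by
    intro h0
    have h2 := hγ.pow_eq_one
    rw [h0, zero_pow (by omega)] at h2
    exact zero_ne_one h2
  -- the conjugates
  set g : ℕ → O := fun i => γ ^ p ^ (e * (k - i)) with hg
  have hτg : ∀ i ≤ k, (τ ^ i) (algebraMap O K γ) = algebraMap O K (g i) := by
    intro i hi
    apply pow_inj p (e * i)
    rw [semi_pow hτ, AlgHom.commutes, ← map_pow, hg]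
    simp only
    rw [← pow_mul, ← pow_add, ← Nat.mul_add, Nat.sub_add_cancel hi, hγk]
  have hg0 : g 0 = γ := by simp only [hg, Nat.sub_zero, hγk]
  have hgi : ∀ i, 0 < i → i < k → g i ≠ γ := by
    intro i hi hik h2
    have h3 : γ ^ p ^ (e * (k - i)) = γ := h2
    have h4 : 1 < p ^ (e * (k - i)) :=
      Nat.one_lt_pow (Nat.mul_pos he (by omega)).ne' hpr.out.one_lt
    have h5 : γ ^ (p ^ (e * (k - i)) - 1) = 1 := by
      have h6 : p ^ (e * (k - i)) = (p ^ (e * (k - i)) - 1) + 1 := by omega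
      rw [h6, pow_succ] at h3
      exact mul_right_cancel₀ hγ0 (h3.trans (one_mul γ).symm)
    have h7 := Nat.le_of_dvd (by omega) (hγ.dvd_of_pow_eq_one _ h5)
    have h8 : p ^ (e * (k - i)) < p ^ (e * k) :=
      Nat.pow_lt_pow_right hpr.out.one_lt (Nat.mul_lt_mul_of_pos_left (by omega) he)
    omega
  have hgk : g k = γ := by simp only [hg, Nat.sub_self, mul_zero, pow_zero, pow_one]
  clear_value g
  set P : O[X] := ∏ i ∈ Finset.Ioo 0 k, (X - C (g i)) with hP
  have hPi : ∀ i, 0 < i → i < k → P.eval (g i) = 0 := by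
    intro i hi hik
    rw [hP, eval_prod]
    refine Finset.prod_eq_zero (i := i) (Finset.mem_Ioo.2 ⟨hi, hik⟩) ?_
    rw [eval_sub, eval_X, eval_C, sub_self]
  have hP0 : P.eval γ ≠ 0 := by
    rw [hP, eval_prod, Finset.prod_ne_zero_iff]
    intro i hi
    rw [Finset.mem_Ioo] at hi
    rw [eval_sub, eval_X, eval_C, sub_ne_zero]
    exact (hgi i hi.1 hi.2).symm
  -- the traces
  set b : ℕ → K := fun l => ∑ i ∈ Finset.range k, (τ ^ i) (algebraMap O K γ ^ l * a) with hb
  have hbM : ∀ l, b l ∈ ι.fieldRange := fun l =>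
    sum_mem fun i _ => hτM' i _ (mul_mem (pow_mem (ι.fieldRange.algebraMap_mem γ) _) ha)
  choose c hc using hbM
  have hinj : Function.Injective ι := ι.toRingHom.injective
  have hbτ : ∀ l, τ (b l) = b l := by
    intro l
    simp only [hb]
    rw [map_sum]
    have h2 : ∀ i, τ ((τ ^ i) (algebraMap O K γ ^ l * a)) =
        (τ ^ (i + 1)) (algebraMap O K γ ^ l * a) := by
      intro i
      rw [pow_succ']
      rfl
    rw [Finset.sum_congr rfl fun i _ => h2 i]
    have h3 := Finset.sum_range_succ (fun i => (τ ^ i) (algebraMap O K γ ^ l * a)) k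
    rw [Finset.sum_range_succ'] at h3
    have h4 : (τ ^ k) (algebraMap O K γ ^ l * a) = algebraMap O K γ ^ l * a := by
      rw [map_mul, map_pow, hτg k le_rfl, hτk, hgk]
    rw [h4, pow_zero] at h3
    exact add_right_cancel h3
  have hbφ : ∀ l, φM (c l) = c l ^ p ^ e := by
    intro l
    apply hinj
    rw [hφM, map_pow]
    have h2 : ι (c l) = b l := hc l
    rw [h2, ← hτ, hbτ]
  -- the element `a`
  have key : algebraMap O K (P.eval γ) * a =
      ∑ l ∈ Finset.range (P.natDegree + 1), algebraMap O K (P.coeff l) * b l := by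
    have h2 : ∀ l, algebraMap O K (P.coeff l) * b l = ∑ i ∈ Finset.range k,
        algebraMap O K (P.coeff l * g i ^ l) * (τ ^ i) a := by
      intro l
      simp only [hb]
      rw [Finset.mul_sum]
      refine Finset.sum_congr rfl fun i hi => ?_
      rw [map_mul, map_pow, hτg i (Finset.mem_range.1 hi).le, map_mul, map_pow]
      ring
    rw [Finset.sum_congr rfl fun l _ => h2 l, Finset.sum_comm]
    have h3 : ∀ i, ∑ l ∈ Finset.range (P.natDegree + 1),
        algebraMap O K (P.coeff l * g i ^ l) * (τ ^ i) a =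
          algebraMap O K (P.eval (g i)) * (τ ^ i) a := by
      intro i
      rw [← Finset.sum_mul, ← map_sum, eval_eq_sum_range]
    rw [Finset.sum_congr rfl fun i _ => h3 i, Finset.sum_eq_single 0]
    · rw [hg0, pow_zero]
      rfl
    · intro i hi hi0
      rw [hPi i (Nat.pos_of_ne_zero hi0) (Finset.mem_range.1 hi), map_zero, zero_mul]
    · intro h4
      exact absurd (Finset.mem_range.2 hk) h4
  have hmem : a₀ = algebraMap O M (P.eval γ)⁻¹ *
      ∑ l ∈ Finset.range (P.natDegree + 1), algebraMap O M (P.coeff l) * c l := by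
    apply hinj
    rw [map_mul, map_sum, AlgHom.commutes]
    have h2 : ∀ l, ι (algebraMap O M (P.coeff l) * c l) = algebraMap O K (P.coeff l) * b l := by
      intro l
      have h3 : ι (c l) = b l := hc l
      rw [map_mul, AlgHom.commutes, h3]
    rw [Finset.sum_congr rfl fun l _ => h2 l, ← key, ← mul_assoc, ← map_mul,
      inv_mul_cancel₀ hP0, map_one, one_mul, ha₀]
  rw [hmem]
  exact mul_mem (IntermediateField.algebraMap_mem _ _) (sum_mem fun l _ =>
    mul_mem (IntermediateField.algebraMap_mem _ _) (subset_adjoin O _ (hbφ l)))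

end Pool.Agent.Helper9.SS
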