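import Mathlib
import Pool.Agent.Helper9.SS.Kill

/-! Project SS (MP_1fe969_ag). Semisimplicity at one eigenvalue. -/

set_option autoImplicit false

namespace Pool.Agent.Helper9.SS

open Polynomial

section

variable {L V : Type} [Field L] [AddCommGroup V] [Module L V]

/-- the generalised eigenspace of `F` for `α` is the eigenspace -/
def SimpleAt (F : Module.End L V) (α : L) : Prop :=
  ∀ v, (F - algebraMap L _ α) ((F - algebraMap L _ α) v) = 0 → (F - algebraMap L _ α) v = 0

theorem sub_apply (F : Module.End L V) (α : L) (v : V) :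
    (F - algebraMap L _ α) v = F v - α • v := rfl

theorem SimpleAt.pow {F : Module.End L V} {α : L} (h : SimpleAt F α) (n : ℕ) {v : V}
    (hv : ((F - algebraMap L _ α) ^ n) v = 0) (hn : n ≠ 0) : (F - algebraMap L _ α) v = 0 := by
  induction n with
  | zero => exact absurd rfl hn
  | succ n ih =>
    rcases Nat.eq_zero_or_pos n with rfl | hn0
    · simpa using hv
    · apply ih
      · obtain ⟨k, rfl⟩ : ∃ k, n = k + 1 := ⟨n - 1, by omega⟩
        rw [pow_succ', Module.End.mul_apply]
        apply h
        rw [pow_succ', pow_succ', Module.End.mul_apply, Module.End.mul_apply] at hv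
        exact hv
      · omega

/-- `v` is killed by a polynomial with the simple root `β` -/
def Killed (F : Module.End L V) (β : L) (v : V) : Prop :=
  ∃ P : L[X], P.eval β ≠ 0 ∧ aeval F ((X - C β) * P) v = 0

theorem Killed.add {F : Module.End L V} {β : L} {v w : V} (hv : Killed F β v)
    (hw : Killed F β w) : Killed F β (v + w) := by
  obtain ⟨P, hP, h1⟩ := hv
  obtain ⟨P', hP', h2⟩ := hw
  refine ⟨P * P', ?_, ?_⟩
  · rw [eval_mul]
    exact mul_ne_zero hP hP'
  · rw [map_add]
    have e1 : (X - C β) * (P * P') = P' * ((X - C β) * P) := by ring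
    have e2 : (X - C β) * (P * P') = P * ((X - C β) * P') := by ring
    rw [show aeval F ((X - C β) * (P * P')) v = 0 by
      rw [e1, map_mul, Module.End.mul_apply, h1, map_zero],
      show aeval F ((X - C β) * (P * P')) w = 0 by
      rw [e2, map_mul, Module.End.mul_apply, h2, map_zero], add_zero]

theorem Killed.zero {F : Module.End L V} {β : L} : Killed F β 0 :=
  ⟨1, by rw [eval_one]; exact one_ne_zero, map_zero _⟩

theorem Killed.smul {F : Module.End L V} {β : L} {v : V} (c : L) (hv : Killed F β v) :
    Killed F β (c • v) := by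
  obtain ⟨P, hP, h1⟩ := hv
  exact ⟨P, hP, by rw [map_smul, h1, smul_zero]⟩

/-- the submodule of the killed elements -/
def killed (F : Module.End L V) (β : L) : Submodule L V where
  carrier := {v | Killed F β v}
  add_mem' := Killed.add
  zero_mem' := Killed.zero
  smul_mem' := fun c _ h => h.smul c

theorem killed_simple {F : Module.End L V} {β : L} {v : V} (h : Killed F β v)
    (hv : (F - algebraMap L _ β) ((F - algebraMap L _ β) v) = 0) :
    (F - algebraMap L _ β) v = 0 := by
  obtain ⟨P, hP, h1⟩ := h
  obtain ⟨S, hS⟩ : (X - C β) ∣ P - C (P.eval β) := by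
    rw [dvd_iff_isRoot, IsRoot, eval_sub, eval_C, sub_self]
  have h2 : P = (X - C β) * S + C (P.eval β) := by rw [← hS]; ring
  have h3 : (X - C β) * P = S * ((X - C β) * (X - C β)) + C (P.eval β) * (X - C β) := by
    rw [h2]
    simp only [eval_add, eval_mul, eval_sub, eval_X, eval_C, sub_self, zero_mul, zero_add]
    ring
  rw [h3, map_add, map_mul, map_mul, map_mul, map_sub, aeval_X, aeval_C, aeval_C,
    LinearMap.add_apply, Module.End.mul_apply, Module.End.mul_apply, Module.End.mul_apply, hv,
    map_zero, zero_add, Module.algebraMap_end_apply] at h1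
  exact (smul_eq_zero.mp h1).resolve_left hP

theorem simple_of_killed {F : Module.End L V} {β : L} (h : ∀ v, Killed F β v) : SimpleAt F β :=
  fun v hv => killed_simple (h v) hv

/-- a squarefree polynomial -/
theorem killed_of_squarefree {F : Module.End L V} {β : L} {f : L[X]} {v : V} (hf : Squarefree f)
    (h : aeval F f v = 0) : Killed F β v := by
  by_cases h1 : f.eval β = 0
  · obtain ⟨P, hP⟩ := dvd_iff_isRoot.mpr h1
    refine ⟨P, fun h2 => ?_, by rw [← hP, h]⟩
    obtain ⟨P', hP'⟩ := dvd_iff_isRoot.mpr h2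
    exact (irreducible_X_sub_C β).not_isUnit (hf _ (Dvd.intro P' (by rw [hP, hP', mul_assoc])))
  · refine ⟨f, h1, ?_⟩
    rw [map_mul, Module.End.mul_apply, h, map_zero]

theorem killed_of_polF [CharZero L] {F : Module.End L V} {q β : L} {f : L[X]} {v : V}
    (hf : Squarefree f) (hβ : β ≠ -q) (h : aeval F (polF f q) v = 0) : Killed F β v := by
  by_cases h1 : (polF f q).eval β = 0
  · obtain ⟨P, hP⟩ := dvd_iff_isRoot.mpr h1
    refine ⟨P, fun h2 => ?_, by rw [← hP, h]⟩
    obtain ⟨P', hP'⟩ := dvd_iff_isRoot.mpr h2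
    exact polF_simple hf hβ (Dvd.intro P' (by rw [hP, hP', mul_assoc]))
  · refine ⟨polF f q, h1, ?_⟩
    rw [map_mul, Module.End.mul_apply, h, map_zero]

/-- a power -/
theorem simple_of_pow [CharZero L] {F : Module.End L V} (hF : Function.Injective F) {α : L} {n : ℕ}
    (hn : n ≠ 0) (h : SimpleAt (F ^ n) (α ^ n)) : SimpleAt F α := by
  by_cases hα : α = 0
  · intro v hv
    rw [hα, map_zero, sub_zero] at hv ⊢
    apply hF
    rw [hv, map_zero]
  intro v hv
  obtain ⟨S, hS⟩ : (X - C α) ∣ (X ^ n - C (α ^ n) : L[X]) := by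
    rw [dvd_iff_isRoot, IsRoot, eval_sub, eval_pow, eval_X, eval_C, sub_self]
  have hSα : S.eval α ≠ 0 := by
    have h1 := congrArg (fun r => (derivative r).eval α) hS
    simp only [derivative_sub, derivative_X_pow, derivative_C, derivative_mul, derivative_X,
      sub_zero, one_mul, eval_add, eval_mul, eval_sub, eval_X, eval_C, eval_pow, sub_self,
      zero_mul, add_zero, map_natCast, eval_natCast] at h1
    rw [← h1]
    exact mul_ne_zero (Nat.cast_ne_zero.mpr hn) (pow_ne_zero _ hα)
  have h2 : F ^ n - algebraMap L _ (α ^ n) = aeval F S * (F - algebraMap L _ α) := by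
    have h3 := congrArg (fun r => aeval F r) hS
    simp only [map_sub, map_mul, map_pow, aeval_X, aeval_C] at h3
    rw [map_pow, h3]
    have h4 : (F - algebraMap L (Module.End L V) α) = aeval F (X - C α) := by
      rw [map_sub, aeval_X, aeval_C]
    rw [h4, ← map_mul, ← map_mul, mul_comm]
  have h3 : (F ^ n - algebraMap L _ (α ^ n)) v = 0 := by
    apply h
    rw [h2]
    have h4 : ∀ w, (F - algebraMap L (Module.End L V) α) (aeval F S w) =
        aeval F S ((F - algebraMap L _ α) w) := by
      intro w
      have h4 : (F - algebraMap L (Module.End L V) α) = aeval F (X - C α) := by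
        rw [map_sub, aeval_X, aeval_C]
      rw [h4, ← Module.End.mul_apply, ← Module.End.mul_apply, ← map_mul, ← map_mul, mul_comm]
    rw [Module.End.mul_apply, Module.End.mul_apply, h4, hv, map_zero, map_zero]
  rw [h2, Module.End.mul_apply] at h3
  have h5 : F ((F - algebraMap L _ α) v) = α • ((F - algebraMap L _ α) v) := by
    rw [← sub_eq_zero]
    exact hv
  rw [aeval_eigen h5] at h3
  exact (smul_eq_zero.mp h3).resolve_left hSα

theorem map_aeval {V' : Type} [AddCommGroup V'] [Module L V'] {F : Module.End L V}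
    {F' : Module.End L V'} (g : V →ₗ[L] V') (hc : ∀ v, g (F v) = F' (g v)) (P : L[X]) (v : V) :
    g (aeval F P v) = aeval F' P (g v) := by
  induction P using Polynomial.induction_on' with
  | add P Q hP hQ =>
    rw [map_add, map_add, LinearMap.add_apply, LinearMap.add_apply, map_add, hP, hQ]
  | monomial m c =>
    have h2 : ∀ m : ℕ, g ((F ^ m) v) = (F' ^ m) (g v) := by
      intro m
      induction m with
      | zero => simp
      | succ m ih => rw [pow_succ', pow_succ', Module.End.mul_apply, Module.End.mul_apply, hc, ih]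
    rw [aeval_monomial, aeval_monomial, Algebra.algebraMap_eq_smul_one,
      Algebra.algebraMap_eq_smul_one, smul_mul_assoc, one_mul, smul_mul_assoc, one_mul,
      LinearMap.smul_apply, LinearMap.smul_apply, map_smul, h2]

theorem Killed.map {V' : Type} [AddCommGroup V'] [Module L V'] {F : Module.End L V}
    {F' : Module.End L V'} (g : V →ₗ[L] V') (hc : ∀ v, g (F v) = F' (g v)) {β : L} {v : V}
    (h : Killed F β v) : Killed F' β (g v) := by
  obtain ⟨P, hP, h1⟩ := h
  exact ⟨P, hP, by rw [← map_aeval g hc, h1, map_zero]⟩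

theorem simple_of_inj {V' : Type} [AddCommGroup V'] [Module L V'] {F : Module.End L V}
    {F' : Module.End L V'} (g : V →ₗ[L] V') (hg : Function.Injective g)
    (hc : ∀ v, g (F v) = F' (g v)) {α : L} (h : SimpleAt F' α) : SimpleAt F α := by
  have h1 : ∀ v, g ((F - algebraMap L _ α) v) = (F' - algebraMap L _ α) (g v) := by
    intro v
    rw [sub_apply, sub_apply, map_sub, map_smul, hc]
  intro v hv
  apply hg
  rw [map_zero, h1]
  apply h
  rw [← h1, ← h1, hv, map_zero]

/-- the kernel of `r`, on which a power of `F` is a scalar, and a complement -/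
theorem simple_of_parts [CharZero L] {W : Type} [AddCommGroup W] [Module L W]
    {F : Module.End L V} {Φ : Module.End L W} (r : V →ₗ[L] W) (hc : ∀ v, r (F v) = Φ (r v))
    {α : L} (h : SimpleAt Φ α) {q : L} (hq : q ≠ 0) {m : ℕ} (hm : 0 < m)
    (hker : ∀ v, r v = 0 → (F ^ m) v = q ^ m • v)
    (hW : ∃ U : Submodule L V, (∀ v ∈ U, F v ∈ U) ∧ IsCompl (LinearMap.ker r) U) :
    SimpleAt F α := by
  obtain ⟨U, hU, hcomp⟩ := hW
  set D := F - algebraMap L (Module.End L V) α with hD
  have h1 : ∀ v, r (D v) = (Φ - algebraMap L _ α) (r v) := by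
    intro v
    rw [hD, sub_apply, sub_apply, map_sub, map_smul, hc]
  have hDk : ∀ v, r v = 0 → r (D v) = 0 := by
    intro v hv
    rw [h1, hv, map_zero]
  have hDU : ∀ v ∈ U, D v ∈ U := by
    intro v hv
    rw [hD, sub_apply]
    exact sub_mem (hU v hv) (U.smul_mem α hv)
  have hzero : ∀ v, r v = 0 → v ∈ U → v = 0 := fun v hv hv' =>
    (Submodule.disjoint_def.1 hcomp.disjoint) v hv hv'
  intro v hv
  obtain ⟨k, hk, u, hu, rfl⟩ : ∃ k ∈ LinearMap.ker r, ∃ u ∈ U, k + u = v := by
    have := (Submodule.mem_sup (x := v)).1 (by rw [hcomp.sup_eq_top]; trivial)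
    exact this
  rw [LinearMap.mem_ker] at hk
  have e1 : D (D k) + D (D u) = 0 := by rw [← map_add, ← map_add]; exact hv
  have e2 : D (D k) = 0 := by
    apply hzero
    · exact hDk _ (hDk _ hk)
    · rw [eq_neg_of_add_eq_zero_left e1]
      exact U.neg_mem (hDU _ (hDU _ hu))
  have e3 : D (D u) = 0 := by rw [e2, zero_add] at e1; exact e1
  -- the kernel
  have e4 : D k = 0 := by
    have h2 : Killed F α k := by
      refine killed_of_squarefree (f := X ^ m - C (q ^ m)) ?_ ?_
      · exact (separable_X_pow_sub_C (q ^ m) (Nat.cast_ne_zero.mpr hm.ne')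
          (pow_ne_zero _ hq)).squarefree
      · rw [map_sub, map_pow, aeval_X, aeval_C, LinearMap.sub_apply,
          Module.algebraMap_end_apply, hker k hk, sub_self]
    exact killed_simple h2 e2
  have e5 : D u = 0 := by
    apply hzero _ _ (hDU _ hu)
    rw [h1]
    apply h
    rw [← h1, ← h1, e3, map_zero]
  rw [map_add, e4, e5, add_zero]

end

end Pool.Agent.Helper9.SS
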