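import Mathlib
import Pool.Agent.Helper9.SS.BC
import Pool.Agent.Helper9.SS.Desc
import Pool.Agent.Helper9.SS.Simp

/-! Project SS (MP_1fe969_ag). Abelian extensions and a Frobenius endomorphism which conjugates the
Galois group to its inverse. -/

set_option autoImplicit false

namespace Pool.Agent.Helper9.SS

open IntermediateField Polynomial Module
open Pool.Agent.Helper75.QC (Uniruled IsFrob isFrob_algebraic)
open Pool.Agent.Helper75.WC (mem_iSup_eigen incl)
open Pool.Agent.Helper9.CHI (HasVoisinChi)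

variable {p : ℕ} [hpr : Fact p.Prime] {O L : Type} [Field O] [CharP O p] [IsAlgClosed O] [Field L]
  [CharZero L] [IsAlgClosed L]

/-- one field -/
theorem Motives.killed_one (H : CX.CHV.FunMul) (hp3 : 3 < p)
    (T : Motives p O L) {M : Type} [Field M] [Algebra O M] {s : M ≃ₐ[O] M} (hs : IsBC p O s)
    {n : ℕ} (hn : 0 < n) {ψ : M →ₐ[O] M} (hψ : IsFrob (p ^ n) ψ)
    (hψs : ∀ z, ψ (s z) = s.symm (ψ z)) {χ : L} {v : T.H M}
    (hv : T.map (s : M →ₐ[O] M) v = χ • v) {β : L} (hβ : β ≠ -(p : L) ^ (n * 2)) :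
    Killed (T.map (ψ ^ 2)) β v := by
  obtain ⟨hM, m, hm, hsm, hV, R, hR, hU⟩ := hs.all H hp3
  by_cases hχ : χ = 1
  · rw [hχ, one_smul] at hv
    rw [fixed_zero T.toCoh hm hsm R hR hU v hv]
    exact Killed.zero
  · obtain ⟨f, hf, h⟩ := T.kill_frob hM hm hsm hV hn hψ hψs
    exact killed_of_polF hf hβ (h χ v hχ hv)

/-- **Abelian extensions.** -/
theorem Motives.simple_abelian (H : CX.CHV.FunMul) (hp3 : 3 < p) (hΩ : ∀ c : O, ∃ k : ℕ, 0 < k ∧ c ^ p ^ k = c)
    (T : Motives p O L) {K : Type} [Field K] [Algebra O K] (R : IntermediateField O K)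
    [FiniteDimensional R K] [IsGalois R K] (hab : ∀ g h : K ≃ₐ[R] K, g * h = h * g)
    (h : ∀ M : IntermediateField R K, IsCyclic (M ≃ₐ[R] M) →
      ((⊤ : IntermediateField O M).FG ∧ Good p T.toCoh M) ∨
        ∃ s : M ≃ₐ[R] M, IsBC p O (s.restrictScalars O))
    {n : ℕ} (hn : 0 < n) (ψ : K →ₐ[O] K) (hψ : IsFrob (p ^ n) ψ)
    (hg : ∀ (g : K ≃ₐ[R] K) (z : K), ψ (g z) = g.symm (ψ z)) {β : L}
    (hβ : β ≠ -(p : L) ^ (n * 2)) : SimpleAt (T.map (ψ ^ 2)) β := by
  have hcK : CharP K p := charP_of_injective_algebraMap (algebraMap O K).injective p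
  refine simple_of_killed fun t => ?_
  have h1 := mem_iSup_eigen hab (galRep T.toCoh R) t
  have h2 : (⨆ χ : (K ≃ₐ[R] K) →* Lˣ,
    ⨅ g, (galRep T.toCoh R g).eigenspace (χ g : L)) ≤ killed (T.map (ψ ^ 2)) β := by
    refine iSup_le fun χ v hv => ?_
    have hv' : ∀ g, galRep T.toCoh R g v = (χ g : L) • v := fun g => by
      rw [Submodule.mem_iInf] at hv
      exact Module.End.mem_eigenspace_iff.1 (hv g)
    have h5 := eigen_cyclic T.toCoh R χ v hv'
    obtain ⟨M, hM⟩ : ∃ M : IntermediateField R K, M = fixedField χ.ker := ⟨_, rfl⟩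
    rw [← hM] at h5
    obtain ⟨hcyc, u, hu⟩ := h5
    have hmem : ∀ z, z ∈ M ↔ ∀ g : χ.ker, (g : K ≃ₐ[R] K) z = z := by
      intro z
      rw [hM]
      exact Iff.rfl
    -- `ψ` maps `M` to `M`
    have hψM : ∀ z ∈ M, ψ z ∈ M := by
      intro z hz
      rw [hmem] at hz ⊢
      intro g
      have h3 := hg (g : K ≃ₐ[R] K)⁻¹ z
      have h4 : ((g : K ≃ₐ[R] K)⁻¹) z = z := hz ⟨(g : K ≃ₐ[R] K)⁻¹, χ.ker.inv_mem g.2⟩
      rw [h4] at h3
      exact h3.symm
    let ψM : M →ₐ[O] M :=
      { toFun := fun z => ⟨ψ z, hψM z z.2⟩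
        map_one' := Subtype.ext (map_one ψ)
        map_mul' := fun a b => Subtype.ext (map_mul ψ (a : K) (b : K))
        map_zero' := Subtype.ext (map_zero ψ)
        map_add' := fun a b => Subtype.ext (map_add ψ (a : K) (b : K))
        commutes' := fun c => Subtype.ext (ψ.commutes c) }
    have hι : ∀ a : M, incl R M (ψM a) = ψ (incl R M a) := fun a => rfl
    have hfr : IsFrob (p ^ n) ψM := by
      refine isFrob_sub hΩ hn ψ hψ (incl R M) ?_ ψM hι
      rintro a ⟨b, hb⟩
      have hb' : (b : K) = a ^ p ^ n := hb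
      have ha : a ∈ M := by
        rw [hmem]
        intro g
        have h3 : (g : K ≃ₐ[R] K) (a ^ p ^ n) = a ^ p ^ n := by
          rw [← hb']
          exact (hmem b).1 b.2 g
        rw [map_pow] at h3
        exact pow_inj p n h3
      exact ⟨⟨a, ha⟩, rfl⟩
    -- the square
    have hcomm : ∀ w : T.H M, T.map (incl R M) (T.map (ψM ^ 2) w) =
        T.map (ψ ^ 2) (T.map (incl R M) w) := by
      intro w
      have h3 : (incl R M).comp (ψM ^ 2) = (ψ ^ 2).comp (incl R M) := by
        ext a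
        rw [sq, sq]
        rfl
      have h4 := congrArg (fun r => T.map r w) h3
      simp only [T.map_comp, LinearMap.comp_apply] at h4
      exact h4
    have hk : Killed (T.map (ψM ^ 2)) β u := by
      rcases h M hcyc with ⟨hfg, hgood⟩ | ⟨s, hs⟩
      · have hfin : FiniteDimensional L (T.H M) := T.fin M hfg
        have h3 := hgood (n * 2) (ψM ^ 2) (by omega) (isFrob_pow hfr 2)
        refine killed_of_squarefree h3.minpoly_squarefree ?_
        rw [minpoly.aeval, LinearMap.zero_apply]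
      · -- a lift of `s`
        have hlift : ∀ z : M, (s.liftNormal K) (z : K) = ((s z : M) : K) := fun z =>
          s.liftNormal_commutes K z
        have hψs : ∀ z, ψM ((s.restrictScalars O) z) = (s.restrictScalars O).symm (ψM z) := by
          intro z
          rw [AlgEquiv.eq_symm_apply]
          apply Subtype.ext
          change ((s (ψM (s z)) : M) : K) = ψ z
          rw [← hlift]
          change (s.liftNormal K) (ψ ((s z : M) : K)) = ψ z
          rw [← hlift, hg, AlgEquiv.apply_symm_apply]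
        have hinj : Function.Injective (T.map (incl R M)) := by
          refine T.inj _ fun a => ?_
          have h1 : IsAlgebraic M a := Algebra.IsAlgebraic.isAlgebraic a
          obtain ⟨P, hP, hP'⟩ := h1
          let f : M →+* (incl R M).fieldRange :=
            { toFun := fun c => ⟨c, ⟨c, rfl⟩⟩
              map_one' := rfl
              map_mul' := fun _ _ => rfl
              map_zero' := rfl
              map_add' := fun _ _ => rfl }
          refine ⟨P.map f, (Polynomial.map_ne_zero_iff f.injective).2 hP, ?_⟩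
          rw [Polynomial.aeval_def, Polynomial.eval₂_map]
          exact hP'
        refine T.killed_one H hp3 hs hn hfr hψs (χ := (χ (s.liftNormal K) : L)) ?_ hβ
        apply hinj
        rw [map_smul]
        have h3 : (incl R M).comp ((s.restrictScalars O : M ≃ₐ[O] M) : M →ₐ[O] M) =
            (((s.liftNormal K : K ≃ₐ[R] K) : K →ₐ[R] K).restrictScalars O).comp (incl R M) := by
          ext z
          exact (hlift z).symm
        have h4 := congrArg (fun r => T.map r u) h3
        simp only [T.map_comp, LinearMap.comp_apply] at h4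
        rw [h4, hu]
        exact hv' (s.liftNormal K)
    rw [← hu]
    exact hk.map _ hcomm
  exact h2 h1

/-- **The eigenvalues.** -/
theorem Motives.simple_frob (H : CX.CHV.FunMul) (hp3 : 3 < p) (hΩ : ∀ c : O, ∃ k : ℕ, 0 < k ∧ c ^ p ^ k = c)
    (T : Motives p O L) {K : Type} [Field K] [Algebra O K] (R : IntermediateField O K)
    [FiniteDimensional R K] [IsGalois R K] (hab : ∀ g h : K ≃ₐ[R] K, g * h = h * g)
    (h : ∀ M : IntermediateField R K, IsCyclic (M ≃ₐ[R] M) →
      ((⊤ : IntermediateField O M).FG ∧ Good p T.toCoh M) ∨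
        ∃ s : M ≃ₐ[R] M, IsBC p O (s.restrictScalars O))
    {e j : ℕ} (he : 0 < e) (hj : 0 < j) (φ : K →ₐ[O] K) (hφ : IsFrob (p ^ e) φ)
    (hg : ∀ (g : K ≃ₐ[R] K) (z : K), (φ ^ j) (g z) = g.symm ((φ ^ j) z)) {α : L}
    (hα : α ^ (j * 2) ≠ -((p : L) ^ e) ^ (j * 2)) : SimpleAt (T.map φ) α := by
  refine simple_of_pow (T.inj φ (isFrob_algebraic (pow_pos hpr.out.pos e) hφ)) (n := j * 2)
    (by omega) ?_
  rw [← tmap_pow T.toCoh, pow_mul φ j 2]
  refine T.simple_abelian H hp3 hΩ R hab h (Nat.mul_pos he hj) (φ ^ j) (isFrob_pow hφ j) hg ?_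
  rwa [mul_assoc, pow_mul (p : L)]

end Pool.Agent.Helper9.SS
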