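import Mathlib
import Pool.Agent.Helper9.SS.Weak
import Pool.Agent.Helper73.CHA.Add

/-! Project SS (MP_1fe969_ag). The families. -/

set_option autoImplicit false

namespace Pool.Agent.Helper9.SS

open IntermediateField Polynomial Module
open Pool.Agent.Helper75.QC (Uniruled IsFrob)
open Pool.Agent.Helper9.CHI (HasVoisinChi IsDickson dickA dickB)
open Pool.Agent.Helper43.CH (IsModel)
open Pool.Agent.Helper73.CHA (IsModelA IsModelL)
open Pool.Agent.Helper73.SS (addP addV aeval_addP)

section

variable {O E F : Type} [Field O] [Field E] [Algebra O E] [Field F] [Algebra O F]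

/-- a field of transcendence degree at most two is algebraic over the image of a field with two
independent elements -/
theorem algebraic_of_trdeg (g : E →ₐ[O] F) {x y : E} (hi : AlgebraicIndependent O ![x, y])
    (hF : Algebra.trdeg O F ≤ 2) (a : F) : IsAlgebraic g.fieldRange a := by
  have h1 : AlgebraicIndependent O (g ∘ ![x, y]) := hi.map' g.toRingHom.injective
  have h2 : IsTranscendenceBasis O (g ∘ ![x, y]) :=
    h1.isTranscendenceBasis_of_trdeg_le_of_finite (by
      rw [Cardinal.mk_fin]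
      exact_mod_cast hF)
  have h3 : Algebra.IsAlgebraic (Algebra.adjoin O (Set.range (g ∘ ![x, y]))) F := h2.isAlgebraic
  obtain ⟨P, hP, hP'⟩ := h3.isAlgebraic a
  have hle : ∀ c ∈ Algebra.adjoin O (Set.range (g ∘ ![x, y])), c ∈ g.fieldRange := by
    intro c hc
    have h4 : Algebra.adjoin O (Set.range (g ∘ ![x, y])) ≤ g.fieldRange.toSubalgebra := by
      apply Algebra.adjoin_le
      rintro _ ⟨i, rfl⟩
      exact ⟨![x, y] i, rfl⟩
    exact h4 hc
  let f : Algebra.adjoin O (Set.range (g ∘ ![x, y])) →+* g.fieldRange :=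
    { toFun := fun c => ⟨c, hle c c.2⟩
      map_one' := rfl
      map_mul' := fun _ _ => rfl
      map_zero' := rfl
      map_add' := fun _ _ => rfl }
  have hf : Function.Injective f := by
    intro c d h
    have h5 : (f c : F) = f d := congrArg Subtype.val h
    exact Subtype.ext h5
  refine ⟨P.map f, (Polynomial.map_ne_zero_iff hf).2 hP, ?_⟩
  rw [Polynomial.aeval_def, Polynomial.eval₂_map]
  exact hP'

theorem uniruled_of_hom (g : E →ₐ[O] F) {i : ℕ} (h : Uniruled O F i) : Uniruled O E i := by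
  obtain ⟨E', _, _, f, S, θ, h1, h2⟩ := h
  exact ⟨E', _, _, f.comp g, S, θ, h1, fun k => h2 (g k)⟩

theorem IsModelL.toM {m : ℕ} {A B : O[X]} {x y w : E} (h : IsModelL O (X ^ m) A B x y w) :
    IsModel O m A B x y w :=
  ⟨h.ind, by have := h.eqn; rwa [map_pow, aeval_X] at this, h.gen⟩

theorem IsModelL.toD {n : ℕ} {A B : O[X]} {x y w : E}
    (h : IsModelL O (dickson 1 (1 : O) n) A B x y w) : IsDickson O n A B x y w :=
  ⟨h.ind, h.eqn, h.gen⟩

theorem IsModelL.toA {p : ℕ} {A B : O[X]} {x y w : E} (h : IsModelL O (X ^ p - X) A B x y w) :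
    IsModelA O p A B x y w :=
  ⟨h.ind, by have := h.eqn; rwa [map_sub, map_pow, aeval_X] at this, h.gen⟩

end

section

variable {O K : Type} [Field O] [IsAlgClosed O] [Field K] [Algebra O K]

/-- the base change by a linear polynomial -/
theorem uniruled_linear {p : ℕ} {l : ℕ → O} {A B : O[X]} {x y w : K} (hAB : IsRational A B)
    (h : IsModelL O (∑ i ∈ Finset.range (0 + 1), C (l i) * X ^ p ^ i) A B x y w)
    (hl : l 0 ≠ 0) : Uniruled O K 2 := by
  have e1 : aeval w (∑ i ∈ Finset.range (0 + 1), C (l i) * X ^ p ^ i : O[X]) =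
      algebraMap O K (l 0) * w := by
    rw [Finset.sum_range_one, pow_zero, pow_one, map_mul, aeval_C, aeval_X]
  have h1 := h.eqn
  rw [e1] at h1
  have hU := Pool.Agent.Helper43.CH.uniruled_rat hAB.degA hAB.degB h1
  have htop : (adjoin O {x, y, algebraMap O K (l 0) * w} : IntermediateField O K) = ⊤ := by
    rw [eq_top_iff, ← h.gen, adjoin_le_iff]
    rintro z (hz | hz | hz)
    · rw [hz]; exact subset_adjoin _ _ (by simp)
    · rw [hz]; exact subset_adjoin _ _ (by simp)
    · rw [hz]
      have h2 : w = algebraMap O K (l 0)⁻¹ * (algebraMap O K (l 0) * w) := by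
        rw [← mul_assoc, ← map_mul, inv_mul_cancel₀ hl, map_one, one_mul]
      rw [h2]
      refine mul_mem (IntermediateField.algebraMap_mem _ _) ?_
      rw [← h2]
      exact subset_adjoin _ _ (by simp)
  rw [htop] at hU
  exact uniruled_of_hom ((IntermediateField.topEquiv (F := O) (E := K)).symm : K →ₐ[O] _) hU

end

section

variable {p : ℕ} [hpr : Fact p.Prime] {O L : Type} [Field O] [CharP O p] [IsAlgClosed O] [Field L]
  [CharZero L] [IsAlgClosed L]

/-- **The symmetric families.** -/
theorem Motives.good_family (H : CX.CHV.FunMul) (hp3 : 3 < p)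
    (hΩ : ∀ c : O, ∃ k : ℕ, 0 < k ∧ c ^ p ^ k = c) (T : Motives p O L) {M : Type} [Field M]
    [Algebra O M] {P A B : O[X]} {x y w : M} (hAB : IsRational A B) (h : IsModelL O P A B x y w)
    (hs : IsSymmetric p P A B) : (⊤ : IntermediateField O M).FG ∧ Good p T.toCoh M := by
  rcases hs with ⟨m, hm, rfl, ha, hb⟩ | ⟨⟨i, l, hl0, hli, rfl⟩, ha, hb⟩ | ⟨n, hn, rfl, ha, hb⟩
  · exact T.good_dual H hp3 hΩ (dual_mul (IsModelL.toM h) hm hAB ha hb)
  · refine ⟨h.fg, ?_⟩
    rcases Nat.eq_zero_or_pos i with rfl | hi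
    · exact good_of_uniruled T.toCoh (uniruled_linear hAB h hl0)
    have h' : IsModelL O (addP p (i + 1) l) A B x y w := h
    obtain ⟨h1, h2⟩ := Pool.Agent.Helper73.CHA.abelian_add_even hi hl0 hli h' hAB.degA hAB.degB
      hAB.ind ha hb
    obtain ⟨h3, h4, h5⟩ := h1
    have hR : (⊤ : IntermediateField O
        (adjoin O {x, y, addV p (i + 1) l w} : IntermediateField O M)).FG :=
      fg_sub (by simp)
    refine good_abelian hΩ T.toCoh _ hR h5 fun N hN => ?_
    rcases h2 N hN with rfl | ⟨A', B', x', y', w', h6, h7, h8, h9, h10, h11⟩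
    · have hU : Uniruled O (adjoin O {x, y, addV p (i + 1) l w} : IntermediateField O M) 2 := by
        refine Pool.Agent.Helper43.CH.uniruled_rat hAB.degA hAB.degB ?_
        have := h'.eqn
        rwa [aeval_addP] at this
      exact good_of_uniruled T.toCoh (uniruled_of_hom
        ((IntermediateField.botEquiv _ M).toAlgHom.restrictScalars O) hU)
    · exact (T.good_dual H hp3 hΩ (dual_as (by omega) h6 ⟨h7, h8, h9⟩ h10 h11)).2
  · have h2 : (2 : O) ≠ 0 := by
      have h3 : ((2 : ℕ) : O) ≠ 0 := fun h0 => by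
        rw [CharP.cast_eq_zero_iff O p] at h0
        exact absurd (Nat.le_of_dvd (by norm_num) h0) (by omega)
      exact_mod_cast h3
    obtain ⟨E, _, _, g, x', y', w', h1⟩ :=
      Pool.Agent.Helper9.CHI.dickson_embed ha hb (IsModelL.toD h)
    refine ⟨h.fg, Good.of_hom hΩ T.toCoh h.fg h1.fg g
      (fun a => algebraic_of_trdeg g h.ind h1.trdeg a)
      (T.good_dual H hp3 hΩ (dual_mul h1 ?_ ⟨?_, ?_, ?_⟩ ?_ ?_)).2⟩
    · rw [Nat.cast_mul]
      exact mul_ne_zero (by exact_mod_cast h2) hn
    · exact Pool.Agent.Helper9.CHI.natDegree_dickA _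
    · exact Pool.Agent.Helper9.CHI.natDegree_dickB _
    · exact fun c d => Pool.Agent.Helper9.CHI.dick_hj ha hb hAB.ind c d
    · exact fun i hi => (Pool.Agent.Helper9.CHI.dickA_coeff A i hi).symm
    · exact fun i hi => (Pool.Agent.Helper9.CHI.dickB_coeff B i hi).symm

end

end Pool.Agent.Helper9.SS
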