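import Mathlib
import Pool.Agent.Helper9.SS.Fam

/-! Project SS (MP_1fe969_ag). The second cohomology. -/

set_option autoImplicit false

namespace Pool.Agent.Helper9.SS

open IntermediateField Polynomial Module
open Pool.Agent.Helper75.QC (Uniruled IsFrob isFrob_algebraic semisimple_of_parts)
open Pool.Agent.Helper43.CH (IsModel)
open Pool.Agent.Helper73.CHA (IsModelA IsModelL)

section

variable {p : ℕ} [hpr : Fact p.Prime] {O L : Type} [Field O] [CharP O p] [IsAlgClosed O] [Field L]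
  [CharZero L] [IsAlgClosed L]

theorem semisimple_fin (hΩ : ∀ c : O, ∃ k : ℕ, 0 < k ∧ c ^ p ^ k = c) (T : Coh O L)
    {K K₀ : Type} [Field K] [Algebra O K] [Field K₀] [Algebra O K₀]
    (hK : (⊤ : IntermediateField O K).FG) (h : Good p T K) (hK₀ : (⊤ : IntermediateField O K₀).FG)
    (g : K₀ →ₐ[O] K) (hg : ∀ a : K, IsAlgebraic g.fieldRange a) {e : ℕ} (he : 0 < e)
    {φ : K₀ →ₐ[O] K₀} (hφ : IsFrob (p ^ e) φ) {V : Type} [AddCommGroup V] [Module L V]
    {Fr : Module.End L V} {r : V →ₗ[L] T.H K₀} (hV : IsH2 T (p ^ e) φ Fr r) :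
    Fr.IsSemisimple := by
  have h1 := Good.of_hom hΩ T hK₀ hK g hg h e φ he hφ
  obtain ⟨m, hm, hk⟩ := hV.classes
  refine semisimple_of_parts Fr (T.map φ) r hV.comm h1 ((p ^ e : ℕ) : L) ?_ hm hk hV.compl
  exact_mod_cast pow_ne_zero _ hpr.out.ne_zero

omit [CharP O p] [IsAlgClosed O] [IsAlgClosed L] in
theorem simple_fin (T : Coh O L) {K K₀ : Type} [Field K] [Algebra O K] [Field K₀] [Algebra O K₀]
    (g : K₀ →ₐ[O] K) (hg : ∀ a : K, IsAlgebraic g.fieldRange a) {e : ℕ} {φ : K →ₐ[O] K}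
    {φ₀ : K₀ →ₐ[O] K₀} (hc : ∀ a, g (φ₀ a) = φ (g a)) {α : L} (h : SimpleAt (T.map φ) α)
    {V : Type} [AddCommGroup V] [Module L V]
    {Fr : Module.End L V} {r : V →ₗ[L] T.H K₀} (hV : IsH2 T (p ^ e) φ₀ Fr r) {n : ℕ} (hn : n ≠ 0)
    {v : V} (hv : ((Fr - algebraMap L _ α) ^ n) v = 0) : Fr v = α • v := by
  have h1 : SimpleAt (T.map φ₀) α := by
    refine simple_of_inj (T.map g) (T.inj g hg) (fun v => ?_) h
    have h2 : g.comp φ₀ = φ.comp g := AlgHom.ext hc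
    have h3 := congrArg (fun r => T.map r v) h2
    simp only [T.map_comp, LinearMap.comp_apply] at h3
    exact h3
  obtain ⟨m, hm, hk⟩ := hV.classes
  have h2 : SimpleAt Fr α := by
    refine simple_of_parts r hV.comm h1 (q := ((p ^ e : ℕ) : L)) ?_ hm hk hV.compl
    exact_mod_cast pow_ne_zero _ hpr.out.ne_zero
  have h3 := h2.pow n hv hn
  rw [sub_apply, sub_eq_zero] at h3
  exact h3

theorem Motives.simple_one (H : CX.CHV.FunMul) (hp3 : 3 < p) (T : Motives p O L) {M : Type}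
    [Field M] [Algebra O M] {s : M ≃ₐ[O] M} (hs : IsBC p O s) {n : ℕ} (hn : 0 < n)
    {ψ : M →ₐ[O] M} (hψ : IsFrob (p ^ n) ψ) (hψs : ∀ z, ψ (s z) = s.symm (ψ z)) {β : L}
    (hβ : β ≠ -(p : L) ^ (n * 2)) : SimpleAt (T.map (ψ ^ 2)) β := by
  obtain ⟨hM, m, hm, hsm, -⟩ := hs.all H hp3
  have hfin : FiniteDimensional L (T.H M) := T.fin M hM.1
  have hSm : (T.map (s : M →ₐ[O] M)) ^ m = 1 := by
    rw [← T.act_cor hM, ← map_pow, T.cor_aut_pow s hsm, map_one]
  exact simple_of_killed fun v => span_eigen (T.map (s : M →ₐ[O] M)) hm hSm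
    (killed (T.map (ψ ^ 2)) β) (fun χ w hw => T.killed_one H hp3 hs hn hψ hψs hw hβ) v

theorem IsQuot.exists_bc {K : Type} [Field K] [Algebra O K] {R : IntermediateField O K}
    {M : IntermediateField R K} (h : IsQuot p O R M) :
    ∃ s : M ≃ₐ[R] M, IsBC p O (s.restrictScalars O) := by
  obtain ⟨P, A, B, x, y, w, hAB, h, hP, hR⟩ := h
  obtain ⟨s, hx, hy, hw, hbc⟩ : ∃ s : M ≃ₐ[O] M, s x = x ∧ s y = y ∧ s (aeval w P) = aeval w P ∧
      IsBC p O s := by
    rcases hP with ⟨m, hm, rfl⟩ | rfl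
    · have hm0 : m ≠ 0 := by rintro rfl; exact hm Nat.cast_zero
      haveI : NeZero (m : O) := ⟨hm⟩
      obtain ⟨ζ, hζ⟩ : ∃ ζ : O, IsPrimitiveRoot ζ m :=
        HasEnoughRootsOfUnity.exists_primitiveRoot O m
      have h' := IsModelL.toM h
      obtain ⟨s, hx, hy, hw⟩ := h'.exists_rot hζ.pow_eq_one (hζ.ne_zero hm0)
      refine ⟨s, hx, hy, ?_, A, B, x, y, w, hAB, hx, hy, Or.inl ⟨m, ζ, h', hm, hζ, hw⟩⟩
      rw [map_pow, aeval_X, map_pow, hw, mul_pow, ← map_pow, hζ.pow_eq_one, map_one, one_mul]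
    · have hcM : CharP M p := charP_of_injective_algebraMap (algebraMap O M).injective p
      have h' := IsModelL.toA h
      obtain ⟨s, hx, hy, hw⟩ := h'.exists_rot
      refine ⟨s, hx, hy, ?_, A, B, x, y, w, hAB, hx, hy, Or.inr ⟨h', hw⟩⟩
      rw [map_sub, map_pow, aeval_X, map_sub, map_pow, hw, add_pow_char, one_pow]
      ring
  have hfix : ∀ c : R, s (algebraMap R M c) = algebraMap R M c := by
    intro c
    have h1 : R ≤ (fixedField (Subgroup.zpowers s)).map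
        (M.val.restrictScalars O : M →ₐ[O] K) := by
      refine hR.ge.trans (adjoin_le_iff.2 ?_)
      have key : ∀ z : M, s z = z → (z : K) ∈ (fixedField (Subgroup.zpowers s)).map
          (M.val.restrictScalars O : M →ₐ[O] K) := by
        intro z hz
        refine ⟨z, ?_, rfl⟩
        rintro ⟨g, hg⟩
        obtain ⟨k, rfl⟩ := Subgroup.mem_zpowers_iff.1 hg
        have h3 : s ∈ MulAction.stabilizer (M ≃ₐ[O] M) z := hz
        exact (Subgroup.zpow_mem _ h3 k)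
      rintro z (rfl | rfl | rfl)
      · exact key x hx
      · exact key y hy
      · exact key _ hw
    obtain ⟨z, hz, hz'⟩ := h1 c.2
    have h2 : z = algebraMap R M c := Subtype.ext hz'
    rw [← h2]
    exact hz ⟨s, Subgroup.mem_zpowers s⟩
  refine ⟨{ s with commutes' := hfix }, ?_⟩
  exact hbc

/-- the family `u = w ^ m` with `m ∣ q ^ j + 1` -/
theorem Motives.simple_mul (H : CX.CHV.FunMul) (hp3 : 3 < p) (T : Motives p O L) {K : Type}
    [Field K] [Algebra O K] {m : ℕ} {A B : O[X]} {x y w : K} (hAB : IsRational A B)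
    (h : IsModelL O (X ^ m) A B x y w) (hm : (m : O) ≠ 0) {e j : ℕ} (he : 0 < e) (hj : 0 < j)
    (hmj : m ∣ (p ^ e) ^ j + 1) {φ : K →ₐ[O] K} (hx : φ x = x ^ p ^ e) (hy : φ y = y ^ p ^ e)
    (hw : φ w = w ^ p ^ e) {α : L} (hα : α ^ (j * 2) ≠ -((p : L) ^ e) ^ (j * 2)) :
    SimpleAt (T.map φ) α := by
  have hm0 : m ≠ 0 := by rintro rfl; exact hm Nat.cast_zero
  haveI : NeZero (m : O) := ⟨hm⟩
  obtain ⟨ζ, hζ⟩ : ∃ ζ : O, IsPrimitiveRoot ζ m :=
    HasEnoughRootsOfUnity.exists_primitiveRoot O m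
  have h' := IsModelL.toM h
  have hζ0 := hζ.ne_zero hm0
  obtain ⟨s, sx, sy, sw⟩ := h'.exists_rot hζ.pow_eq_one hζ0
  have hφ : IsFrob (p ^ e) φ := by
    show adjoin O _ = ⊤
    rw [eq_top_iff, ← h.gen, adjoin_le_iff]
    rintro z (rfl | rfl | rfl)
    · exact subset_adjoin O _ hx
    · exact subset_adjoin O _ hy
    · exact subset_adjoin O _ hw
  have hpow : ∀ (z : K), φ z = z ^ p ^ e → (φ ^ j) z = z ^ (p ^ e) ^ j := by
    intro z hz
    have h1 : ∀ k : ℕ, (φ ^ k) z = z ^ (p ^ e) ^ k := by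
      intro k
      induction k with
      | zero => rw [pow_zero, pow_zero, pow_one]; rfl
      | succ k ih =>
        rw [pow_succ']
        change φ ((φ ^ k) z) = _
        rw [ih, map_pow, hz, ← pow_mul, pow_succ']
    exact h1 j
  refine simple_of_pow (T.inj φ (isFrob_algebraic (pow_pos hpr.out.pos e) hφ)) (n := j * 2)
    (by omega) ?_
  rw [← tmap_pow T.toCoh, pow_mul φ j 2]
  refine T.simple_one H hp3 (s := s)
    ⟨A, B, x, y, w, hAB, sx, sy, Or.inl ⟨m, ζ, h', hm, hζ, sw⟩⟩ (Nat.mul_pos he hj)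
    (isFrob_pow hφ j) ?_ (by rwa [mul_assoc, pow_mul (p : L)])
  have h2 : (φ ^ j).comp (s : K →ₐ[O] K) = (s.symm : K →ₐ[O] K).comp (φ ^ j) := by
    refine h'.ext ?_ ?_ ?_
    · change (φ ^ j) (s x) = s.symm ((φ ^ j) x)
      rw [sx, hpow x hx, map_pow, (AlgEquiv.symm_apply_eq s).2 sx.symm]
    · change (φ ^ j) (s y) = s.symm ((φ ^ j) y)
      rw [sy, hpow y hy, map_pow, (AlgEquiv.symm_apply_eq s).2 sy.symm]
    · change (φ ^ j) (s w) = s.symm ((φ ^ j) w)
      rw [sw, map_mul, AlgHom.commutes, hpow w hw, map_pow,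
        Pool.Agent.Helper43.CH.symm_w hζ0 sw, mul_pow, ← map_pow, inv_pow]
      congr 2
      apply eq_inv_of_mul_eq_one_left
      obtain ⟨d, hd⟩ := hmj
      rw [mul_comm, ← pow_succ, hd, pow_mul, hζ.pow_eq_one, one_pow]
  exact fun z => DFunLike.congr_fun h2 z

end

end Pool.Agent.Helper9.SS
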