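import Mathlib
import Pool.Agent.Helper9.SS.Fin
import Pool.Agent.Helper98.CHE.Main

/-! Project SS (MP_1fe969_ag). The theorems. -/

set_option autoImplicit false

namespace Pool.Agent.Helper9.SS

open IntermediateField Polynomial Module
open Pool.Agent.Helper75.QC (Uniruled IsFrob isFrob_algebraic semisimple_of_parts)
open Pool.Agent.Helper43.CH (IsModel)
open Pool.Agent.Helper43.AC7 (IsAbelianExt IsCyclicExt)
open Pool.Agent.Helper73.CHA (IsModelA IsModelL)

section

variable {p : ℕ} [hpr : Fact p.Prime] {O L : Type} [Field O] [CharP O p] [IsAlgClosed O] [Field L]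
  [CharZero L] [IsAlgClosed L]

theorem thm_one (hp3 : 3 < p) (hΩ : ∀ c : O, ∃ k : ℕ, 0 < k ∧ c ^ p ^ k = c) (T : Motives p O L)
    {K : Type} [Field K] [Algebra O K] {R : IntermediateField O K} (hR : IsAbelianExt R K)
    (h : ∀ M : IntermediateField R K, IsCyclicExt R M → IsGood p T.toCoh M ∨ IsSymm p O M) :
    IsGood p T.toCoh K := by
  obtain ⟨h1, h2, h3⟩ := hR
  have key : ∀ M : IntermediateField R K, IsCyclicExt R M → IsGood p T.toCoh M := by
    intro M hM
    rcases h M hM with h4 | ⟨P, A, B, x, y, w, hAB, h4, h5⟩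
    · exact h4
    · exact T.good_family CX.CHE.funMul hp3 hΩ hAB h4 h5
  have hbot : (⊤ : IntermediateField O (⊥ : IntermediateField R K)).FG := by
    refine (key ⊥ ?_).1
    have h4 : Subsingleton ((⊥ : IntermediateField R K) ≃ₐ[R] (⊥ : IntermediateField R K)) := by
      constructor
      intro a b
      ext z
      obtain ⟨c, hc⟩ := IntermediateField.mem_bot.1 z.2
      have h5 : z = algebraMap R (⊥ : IntermediateField R K) c := Subtype.ext hc.symm
      rw [h5, AlgEquiv.commutes, AlgEquiv.commutes]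
    exact isCyclic_of_subsingleton
  have hRfg : (⊤ : IntermediateField O R).FG := by
    obtain ⟨S, hS⟩ := hbot
    let f : (⊥ : IntermediateField R K) →ₐ[O] R :=
      (IntermediateField.botEquiv R K).toAlgHom.restrictScalars O
    have hf : Function.Surjective f := (IntermediateField.botEquiv R K).surjective
    classical
    refine ⟨S.image f, ?_⟩
    rw [Finset.coe_image, ← adjoin_map, hS, eq_top_iff]
    intro z _
    obtain ⟨y, hy⟩ := hf z
    exact ⟨y, mem_top, hy⟩
  refine ⟨?_, good_abelian hΩ T.toCoh R hRfg h3 fun M hM => (key M hM).2⟩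
  obtain ⟨Q, hQ, hQ'⟩ := exists_gen (Ω := O) (K := K) R hRfg ⊤
  have h4 : adjoin O Q = ⊤ := by
    rw [hQ']
    rfl
  rw [← h4]
  exact fg_adjoin_of_finite hQ

theorem thm_two (hp3 : 3 < p) (hΩ : ∀ c : O, ∃ k : ℕ, 0 < k ∧ c ^ p ^ k = c) (T : Motives p O L)
    {K : Type} [Field K] [Algebra O K] {R : IntermediateField O K} (hR : IsAbelianExt R K)
    (h : ∀ M : IntermediateField R K, IsCyclicExt R M → IsGood p T.toCoh M ∨ IsQuot p O R M)
    {e j : ℕ} (he : 0 < e) (hj : 0 < j) {φ : K →ₐ[O] K} (hφ : IsFrob (p ^ e) φ)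
    (hg : ∀ (g : K ≃ₐ[R] K) (z : K), (φ ^ j) (g z) = g.symm ((φ ^ j) z)) :
    SimpleOff p T.toCoh φ e j := by
  obtain ⟨h1, h2, h3⟩ := hR
  intro K₀ _ _ g hg' φ₀ hc V _ _ Fr r hV α hα n v hn hv
  refine simple_fin T.toCoh g hg' hc (T.simple_frob CX.CHE.funMul hp3 hΩ R h3 (fun M hM => ?_) he hj
    φ hφ hg hα) hV hn hv
  rcases h M hM with h4 | h4
  · exact Or.inl h4
  · exact Or.inr h4.exists_bc

theorem thm_mul (hp3 : 3 < p) (T : Motives p O L)
    {K : Type} [Field K] [Algebra O K] {m : ℕ} {A B : O[X]} {x y w : K} (hAB : IsRational A B)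
    (h : IsModelL O (X ^ m) A B x y w) {e j : ℕ} (he : 0 < e) (hj : 0 < j)
    (hmj : m ∣ (p ^ e) ^ j + 1) {φ : K →ₐ[O] K} (hx : φ x = x ^ p ^ e) (hy : φ y = y ^ p ^ e)
    (hw : φ w = w ^ p ^ e) : SimpleOff p T.toCoh φ e j := by
  have hm : (m : O) ≠ 0 := by
    obtain ⟨d, hd⟩ := hmj
    intro h0
    have h1 := congrArg (fun n : ℕ => (n : O)) hd
    simp only [Nat.cast_add, Nat.cast_pow, Nat.cast_mul, Nat.cast_one, h0, zero_mul,
      CharP.cast_eq_zero] at h1
    rw [zero_pow he.ne', zero_pow hj.ne', zero_add] at h1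
    exact one_ne_zero h1
  intro K₀ _ _ g hg' φ₀ hc V _ _ Fr r hV α hα n v hn hv
  exact simple_fin T.toCoh g hg' hc (T.simple_mul CX.CHE.funMul hp3 hAB h hm he hj hmj hx hy hw hα)
    hV hn hv

end

end Pool.Agent.Helper9.SS
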