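import Mathlib
import Pool.Agent.Helper9.SS.Last
import Pool.Agent.Helper73.CHA.Add

/-! Project SS (MP_1fe969_ag). The additive families. -/

set_option autoImplicit false

namespace Pool.Agent.Helper9.SS

open IntermediateField Polynomial Module
open Pool.Agent.Helper75.QC (Uniruled IsFrob isFrob_algebraic semisimple_of_parts)
open Pool.Agent.Helper43.AC7 (IsAbelianExt IsCyclicExt)
open Pool.Agent.Helper73.CHA (IsModelA IsModelL)
open Pool.Agent.Helper73.SS (addP addV aeval_addP addV_add)

variable {p : ℕ} [hpr : Fact p.Prime] {O L : Type} [Field O] [CharP O p] [IsAlgClosed O] [Field L]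
  [CharZero L] [IsAlgClosed L]

theorem fg_of_surj {M N : Type} [Field M] [Algebra O M] [Field N] [Algebra O N] (f : M →ₐ[O] N)
    (hf : Function.Surjective f) (h : (⊤ : IntermediateField O M).FG) :
    (⊤ : IntermediateField O N).FG := by
  classical
  obtain ⟨S, hS⟩ := h
  refine ⟨S.image f, ?_⟩
  rw [Finset.coe_image, ← adjoin_map, hS, eq_top_iff]
  intro z _
  obtain ⟨y, hy⟩ := hf z
  exact ⟨y, mem_top, hy⟩

omit [IsAlgClosed O] in
theorem IsAdditive.add {P : O[X]} (h : IsAdditive p P) {K : Type} [Field K] [Algebra O K] (a b : K) :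
    aeval (a + b) P = aeval a P + aeval b P := by
  have hcK : CharP K p := charP_of_injective_algebraMap (algebraMap O K).injective p
  obtain ⟨n, l, -, -, rfl⟩ := h
  have h1 : ∀ z : K, aeval z (∑ i ∈ Finset.range (n + 1), C (l i) * X ^ p ^ i : O[X]) =
      addV p (n + 1) l z := fun z => aeval_addP z
  rw [h1, h1, h1, addV_add]

/-- the automorphisms of `O(x, y, w)` over `O(x, y, P(w))` -/
theorem conj_add {K : Type} [Field K] [Algebra O K] {x y w : K} {J : ℕ} (hJ : 0 < J) {P : O[X]}
    (hP : IsAdditive p P) (hPJ : P ∣ X ^ p ^ J + X)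
    (hgen : adjoin O {x, y, w} = ⊤) {ψ : K →ₐ[O] K} (hx : ψ x = x ^ p ^ J)
    (hy : ψ y = y ^ p ^ J) (hw : ψ w = w ^ p ^ J)
    (g : K ≃ₐ[(adjoin O {x, y, aeval w P} : IntermediateField O K)] K) (z : K) :
    ψ (g z) = g.symm (ψ z) := by
  have hcK : CharP K p := charP_of_injective_algebraMap (algebraMap O K).injective p
  have mx : x ∈ (adjoin O {x, y, aeval w P} : IntermediateField O K) :=
    subset_adjoin O _ (by simp)
  have my : y ∈ (adjoin O {x, y, aeval w P} : IntermediateField O K) :=
    subset_adjoin O _ (by simp)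
  have mu : aeval w P ∈ (adjoin O {x, y, aeval w P} : IntermediateField O K) :=
    subset_adjoin O _ (by simp)
  have gx : g x = x := g.commutes ⟨x, mx⟩
  have gy : g y = y := g.commutes ⟨y, my⟩
  have gu : g (aeval w P) = aeval w P := g.commutes ⟨_, mu⟩
  have gO : ∀ c : O, g (algebraMap O K c) = algebraMap O K c := fun c =>
    g.commutes ⟨algebraMap O K c, IntermediateField.algebraMap_mem _ c⟩
  have gP : g (aeval w P) = aeval (g w) P :=
    (Polynomial.aeval_algHom_apply ((g.restrictScalars O : K ≃ₐ[O] K) : K →ₐ[O] K) w P).symm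
  -- the translation
  have h0 : aeval (g w - w) P = 0 := by
    have h2 := hP.add (g w - w) w
    rw [sub_add_cancel, ← gP, gu] at h2
    linear_combination -h2
  have h1 : (g w - w) ^ p ^ J + (g w - w) = 0 := by
    obtain ⟨S, hS⟩ := hPJ
    have h2 := congrArg (aeval (g w - w)) hS
    rw [map_add, map_pow, aeval_X, map_mul, h0, zero_mul] at h2
    exact h2
  obtain ⟨c, hc⟩ : ∃ c : O, algebraMap O K c = g w - w := by
    have h2 : IsAlgebraic O (g w - w) := by
      refine ⟨X ^ p ^ J + X, ?_, ?_⟩
      · intro h0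
        have h4 := congrArg (fun P => P.coeff 1) h0
        have h5 : 1 ≠ p ^ J := (Nat.one_lt_pow hJ.ne' hpr.out.one_lt).ne
        simp only [coeff_add, coeff_X_one, coeff_zero, coeff_X_pow, if_neg h5, zero_add] at h4
        exact one_ne_zero h4
      · rw [map_add, map_pow, aeval_X]
        exact h1
    have hint : IsIntegral O (g w - w) := isAlgebraic_iff_isIntegral.1 h2
    have hmem := IntermediateField.mem_adjoin_simple_self O (g w - w)
    have := IntermediateField.isAlgebraic_adjoin_simple hint
    rw [IntermediateField.eq_bot_of_isAlgClosed_of_isAlgebraic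
      (IntermediateField.adjoin O {g w - w}), IntermediateField.mem_bot] at hmem
    exact hmem
  have gw : g w = w + algebraMap O K c := by rw [hc]; ring
  have gw' : g.symm w = w - algebraMap O K c := by
    rw [AlgEquiv.symm_apply_eq, map_sub, gO, gw]
    ring
  have hcQ : algebraMap O K c ^ p ^ J = - algebraMap O K c := by
    rw [hc]
    linear_combination h1
  have gx' : g.symm x = x := (AlgEquiv.symm_apply_eq g).2 gx.symm
  have gy' : g.symm y = y := (AlgEquiv.symm_apply_eq g).2 gy.symm
  have gO' : ∀ c : O, g.symm (algebraMap O K c) = algebraMap O K c := fun c =>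
    (AlgEquiv.symm_apply_eq g).2 (gO c).symm
  have hz : z ∈ adjoin O {x, y, w} := by rw [hgen]; exact mem_top
  induction hz using adjoin_induction with
  | mem z hz =>
    rcases hz with rfl | rfl | rfl
    · rw [gx, hx, map_pow, gx']
    · rw [gy, hy, map_pow, gy']
    · rw [gw, map_add, AlgHom.commutes, hw, map_pow, gw', sub_pow_char_pow, hcQ]
      ring
  | algebraMap d => rw [gO, AlgHom.commutes, gO']
  | add a b _ _ ha hb => rw [map_add, map_add, map_add, map_add, ha, hb]
  | inv a _ ha => rw [map_inv₀, map_inv₀, map_inv₀, map_inv₀, ha]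
  | mul a b _ _ ha hb => rw [map_mul, map_mul, map_mul, map_mul, ha, hb]

theorem thm_add (hp3 : 3 < p) (hΩ : ∀ c : O, ∃ k : ℕ, 0 < k ∧ c ^ p ^ k = c)
    (T : Motives p O L) {K : Type} [Field K] [Algebra O K] {P A B : O[X]} {x y w : K}
    (hAB : IsRational A B) {e j : ℕ} (he : 0 < e) (hj : 0 < j) (hP : IsAdditive p P)
    (hPJ : P ∣ X ^ (p ^ e) ^ j + X) (h : IsModelL O P A B x y w)
    {φ : K →ₐ[O] K} (hx : φ x = x ^ p ^ e) (hy : φ y = y ^ p ^ e)
    (hw : φ w = w ^ p ^ e) : SimpleOff p T.toCoh φ e j := by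
  have hJ : 0 < e * j := Nat.mul_pos he hj
  rw [← pow_mul] at hPJ
  have hφ : IsFrob (p ^ e) φ := by
    show adjoin O _ = ⊤
    rw [eq_top_iff, ← h.gen, adjoin_le_iff]
    rintro z (rfl | rfl | rfl)
    · exact subset_adjoin O _ hx
    · exact subset_adjoin O _ hy
    · exact subset_adjoin O _ hw
  have hpow : ∀ (z : K), φ z = z ^ p ^ e → (φ ^ j) z = z ^ p ^ (e * j) := by
    intro z hz
    have h1 : ∀ k : ℕ, (φ ^ k) z = z ^ p ^ (e * k) := by
      intro k
      induction k with
      | zero => rw [pow_zero, mul_zero, pow_zero, pow_one]; rfl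
      | succ k ih =>
        rw [pow_succ']
        change φ ((φ ^ k) z) = _
        rw [ih, map_pow, hz, ← pow_mul, Nat.mul_succ, pow_add, mul_comm (p ^ e)]
    exact h1 j
  have hP' := hP
  obtain ⟨n, l, hl0, hln, rfl⟩ := hP'
  rcases Nat.eq_zero_or_pos n with rfl | hn
  · have hU : Uniruled O K 2 := uniruled_linear hAB h hl0
    intro K₀ _ _ g hg' φ₀ hc V _ _ Fr r hV α hα n v hn hv
    exact simple_fin T.toCoh g hg' hc (fun v _ => T.uniruled K hU _) hV hn hv
  have hconj := conj_add hJ hP hPJ h.gen (hpow x hx) (hpow y hy) (hpow w hw)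
  have h' : IsModelL O (addP p (n + 1) l) A B x y w := h
  have e0 : aeval w (∑ i ∈ Finset.range (n + 1), C (l i) * X ^ p ^ i : O[X]) =
      addV p (n + 1) l w := aeval_addP w
  rw [e0] at hconj
  obtain ⟨hab, hcyc⟩ := Pool.Agent.Helper73.CHA.abelian_add hn hl0 hln h'
  refine thm_two hp3 hΩ T hab (fun M hM => ?_) he hj hφ hconj
  rcases hcyc M hM with rfl | ⟨c, x', y', w', hc, ex, ey, eu, hM'⟩
  · left
    have hR : (⊤ : IntermediateField O
        (adjoin O {x, y, addV p (n + 1) l w} : IntermediateField O K)).FG := fg_sub (by simp)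
    have hU : Uniruled O (adjoin O {x, y, addV p (n + 1) l w} : IntermediateField O K) 2 := by
      refine Pool.Agent.Helper43.CH.uniruled_rat hAB.degA hAB.degB ?_
      have := h.eqn
      rwa [e0] at this
    refine ⟨fg_of_surj
      ((IntermediateField.botEquiv _ K).symm.toAlgHom.restrictScalars O :
        (adjoin O {x, y, addV p (n + 1) l w} : IntermediateField O K) →ₐ[O] _)
      (IntermediateField.botEquiv _ K).symm.surjective hR, ?_⟩
    exact good_of_uniruled T.toCoh (uniruled_of_hom
      ((IntermediateField.botEquiv _ K).toAlgHom.restrictScalars O) hU)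
  · right
    refine ⟨X ^ p - X, _, _, x', y', w', ⟨?_, ?_, ?_⟩, hM'.toL, Or.inr rfl, ?_⟩
    · exact Pool.Agent.Helper73.CHA.natDegree_scale hAB.degA _
    · exact Pool.Agent.Helper73.CHA.natDegree_scale hAB.degB _
    · exact fun a b => Pool.Agent.Helper73.CHA.indep_scale hAB.ind hc a b
    · have e1 : ((aeval w' (X ^ p - X : O[X]) : M) : K) = (w' : K) ^ p - w' := by
        rw [map_sub, map_pow, aeval_X]
        rfl
      have hcK : algebraMap O K c ≠ 0 := (_root_.map_ne_zero _).2 hc
      have e2 : (w' : K) ^ p - w' = algebraMap O K c⁻¹ * addV p (n + 1) l w := by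
        have e3 := congrArg (fun r => algebraMap O K c⁻¹ * r) eu
        rw [← mul_assoc, ← map_mul, inv_mul_cancel₀ hc, map_one, one_mul] at e3
        exact e3
      rw [e1, ex, ey]
      apply le_antisymm
      · rw [adjoin_le_iff]
        rintro z (hz | hz | hz)
        · rw [hz]; exact subset_adjoin _ _ (by simp)
        · rw [hz]; exact subset_adjoin _ _ (by simp)
        · rw [hz, e2]
          exact mul_mem (IntermediateField.algebraMap_mem _ _) (subset_adjoin _ _ (by simp))
      · rw [adjoin_le_iff]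
        rintro z (hz | hz | hz)
        · rw [hz]; exact subset_adjoin _ _ (by simp)
        · rw [hz]; exact subset_adjoin _ _ (by simp)
        · rw [hz]
          have h9 : algebraMap O K c * ((w' : K) ^ p - w') ∈
              adjoin O {x, y, (w' : K) ^ p - w'} :=
            mul_mem (IntermediateField.algebraMap_mem _ _) (subset_adjoin _ _ (by simp))
          rwa [eu] at h9

end Pool.Agent.Helper9.SS
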